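import Pool.Agent.MP_161a40_an.H4.Osgood

/-!
The area formula for polynomials (upper bound by the degree) and its fibrewise form.
-/

set_option autoImplicit false

open Complex Metric Set MeasureTheory
open scoped Real Topology ENNReal

namespace Pool.Agent.MP_161a40_an.H4

lemma det_smul_one (c : ℂ) : (c • (1 : ℂ →L[ℝ] ℂ)).det = ‖c‖ ^ 2 := by
  rw [ContinuousLinearMap.det, ← LinearMap.det_toMatrix basisOneI, Matrix.det_fin_two]
  simp [LinearMap.toMatrix_apply, Complex.sq_norm, Complex.normSq_apply]

theorem area_poly (q : Polynomial ℂ) {D : ℕ} (hD : q.natDegree ≤ D) {ψ : ℂ → ℝ≥0∞}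
    (hψ : Measurable ψ) :
    ∫⁻ w, ENNReal.ofReal (‖q.derivative.eval w‖ ^ 2) * ψ (q.eval w) ≤ D * ∫⁻ p, ψ p := by
  classical
  set S : Set ℂ := {w | q.derivative.eval w ≠ 0} with hS
  have hSo : IsOpen S := isOpen_ne_fun q.derivative.continuous continuous_const
  set B : Set (Set ℂ) := {u | u ∈ TopologicalSpace.countableBasis ℂ ∧
    InjOn (fun w => q.eval w) u ∧ u ⊆ S} with hB
  have hBc : (insert ∅ B).Countable :=
    ((TopologicalSpace.countable_countableBasis ℂ).mono fun u hu => hu.1).insert _
  obtain ⟨u, hu⟩ := hBc.exists_eq_range (insert_nonempty _ _)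
  have hu' : ∀ n, IsOpen (u n) ∧ InjOn (fun w => q.eval w) (u n) ∧ u n ⊆ S := by
    intro n
    have : u n ∈ insert ∅ B := hu ▸ mem_range_self n
    rcases this with h | h
    · rw [h]; simp
    · exact ⟨TopologicalSpace.isOpen_of_mem_countableBasis h.1, h.2⟩
  have hcov : S ⊆ ⋃ n, u n := by
    intro w hw
    have h1 := (q.hasStrictDerivAt w).eventually_left_inverse hw
    obtain ⟨v, hv, hwv, hsub⟩ := (TopologicalSpace.isBasis_countableBasis ℂ).mem_nhds_iff.1
      (Filter.inter_mem h1 (hSo.mem_nhds hw))
    have : v ∈ insert ∅ B := Or.inr ⟨hv, fun x hx y hy hxy => by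
      have e1 := (hsub hx).1
      have e2 := (hsub hy).1
      simp only [mem_ofPred_eq] at e1 e2 hxy
      rw [← e1, ← e2, hxy], fun x hx => (hsub hx).2⟩
    rw [hu] at this
    obtain ⟨n, rfl⟩ := this
    exact mem_iUnion.2 ⟨n, hwv⟩
  set T := disjointed u with hT
  have hTm : ∀ n, MeasurableSet (T n) := MeasurableSet.disjointed fun n => (hu' n).1.measurableSet
  have hTi : ∀ n, InjOn (fun w => q.eval w) (T n) := fun n =>
    (hu' n).2.1.mono (disjointed_subset u n)
  have hder : ∀ n, ∀ x ∈ T n, HasFDerivWithinAt (fun w => q.eval w)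
      (q.derivative.eval x • (1 : ℂ →L[ℝ] ℂ)) (T n) x := fun n x _ =>
    (q.hasDerivAt x).complexToReal_fderiv.hasFDerivWithinAt
  have hTim : ∀ n, MeasurableSet ((fun w => q.eval w) '' T n) := fun n =>
    measurable_image_of_fderivWithin (hTm n) (hder n) (hTi n)
  calc ∫⁻ w, ENNReal.ofReal (‖q.derivative.eval w‖ ^ 2) * ψ (q.eval w)
      = ∫⁻ w in ⋃ n, T n, ENNReal.ofReal (‖q.derivative.eval w‖ ^ 2) * ψ (q.eval w) := by
        refine (setLIntegral_eq_of_support_subset fun w hw => ?_).symm
        rw [hT, iUnion_disjointed]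
        refine hcov fun h0 => hw ?_
        simp [h0]
    _ = ∑' n, ∫⁻ w in T n, ENNReal.ofReal (‖q.derivative.eval w‖ ^ 2) * ψ (q.eval w) :=
        lintegral_iUnion hTm (disjoint_disjointed u) _
    _ = ∑' n, ∫⁻ p, ((fun w => q.eval w) '' T n).indicator ψ p := by
        congr 1
        ext n
        rw [lintegral_indicator (hTim n),
          lintegral_image_eq_lintegral_abs_det_fderiv_mul volume (hTm n) (hder n) (hTi n)]
        simp only [det_smul_one, abs_pow, abs_norm]
    _ = ∫⁻ p, ∑' n, ((fun w => q.eval w) '' T n).indicator ψ p :=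
        (lintegral_tsum fun n => (hψ.indicator (hTim n)).aemeasurable).symm
    _ ≤ ∫⁻ p, D * ψ p := by
        refine lintegral_mono fun p => ?_
        refine ENNReal.summable.tsum_le_of_sum_le fun s => ?_
        simp only [indicator_apply]
        rw [← Finset.sum_filter, Finset.sum_const, nsmul_eq_mul]
        refine mul_le_mul_left ?_ _
        have hx : ∀ n, ∃ x, p ∈ (fun w => q.eval w) '' T n → x ∈ T n ∧ q.eval x = p := by
          intro n
          by_cases h : p ∈ (fun w => q.eval w) '' T n
          · obtain ⟨x, h1, h2⟩ := h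
            exact ⟨x, fun _ => ⟨h1, h2⟩⟩
          · exact ⟨0, fun h' => absurd h' h⟩
        choose x hx using hx
        have h1 : (s.filter fun n => p ∈ (fun w => q.eval w) '' T n).card
            ≤ (q - Polynomial.C p).roots.toFinset.card := by
          refine Finset.card_le_card_of_injOn x (fun n hn => ?_) (fun n hn m hm hnm => ?_)
          · have h2 := hx n (Finset.mem_filter.1 hn).2
            have h3 : q - Polynomial.C p ≠ 0 := by
              intro h0
              have h4 := (hu' n).2.2 (disjointed_subset u n h2.1)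
              rw [sub_eq_zero] at h0
              apply h4
              rw [h0]
              simp
            simp [h3, h2.2]
          · by_contra hne
            have h2 := hx n (Finset.mem_filter.1 hn).2
            have h3 := hx m (Finset.mem_filter.1 hm).2
            exact Set.disjoint_left.1 (disjoint_disjointed u hne) h2.1 (hnm ▸ h3.1)
        have h2 : (q - Polynomial.C p).roots.toFinset.card ≤ D :=
          (Multiset.toFinset_card_le _).trans ((Polynomial.card_roots' _).trans
            (by rw [Polynomial.natDegree_sub_C]; exact hD))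
        exact_mod_cast h1.trans h2
    _ = D * ∫⁻ p, ψ p := lintegral_const_mul _ hψ

theorem area_fib {P : ℂ × ℂ → ℂ} {D : ℕ} (hP : Fib P D) {ψ n : ℂ → ℝ} (hψc : Continuous ψ)
    (hψ0 : ∀ p, 0 ≤ ψ p) (hψi : Integrable ψ) (hnc : Continuous n) (hn0 : ∀ a, 0 ≤ n a)
    (hni : Integrable n) :
    ∫ ζ, ψ (P ζ) * (n ζ.1 * ‖d2 P ζ‖ ^ 2) ≤ D * (∫ p, ψ p) * ∫ a, n a := by
  have hPc := hP.diff.continuous
  have hP2 := (differentiable_d2 hP.diff).continuous
  have hc : Continuous fun ζ : ℂ × ℂ => ψ (P ζ) * (n ζ.1 * ‖d2 P ζ‖ ^ 2) := by fun_prop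
  have hψm : Measurable fun p => ENNReal.ofReal (ψ p) := hψc.measurable.ennreal_ofReal
  have hI1 : 0 ≤ ∫ p, ψ p := integral_nonneg hψ0
  have hI2 : 0 ≤ ∫ a, n a := integral_nonneg hn0
  rw [integral_eq_lintegral_of_nonneg_ae (Filter.Eventually.of_forall fun ζ =>
    mul_nonneg (hψ0 _) (mul_nonneg (hn0 _) (by positivity))) hc.aestronglyMeasurable]
  refine ENNReal.toReal_le_of_le_ofReal (by positivity) ?_
  rw [Measure.volume_eq_prod, lintegral_prod _ hc.measurable.ennreal_ofReal.aemeasurable]
  calc ∫⁻ a, ∫⁻ w, ENNReal.ofReal (ψ (P (a, w)) * (n (a, w).1 * ‖d2 P (a, w)‖ ^ 2))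
      ≤ ∫⁻ a, (D * ∫⁻ p, ENNReal.ofReal (ψ p)) * ENNReal.ofReal (n a) := by
        refine lintegral_mono fun a => ?_
        obtain ⟨q, hq, hqe⟩ := hP.poly a
        have hd : ∀ w, d2 P (a, w) = q.derivative.eval w := by
          intro w
          have h1 := hasDerivAt_slice hP.diff a w
          simp only [hqe] at h1
          exact h1.unique (q.hasDerivAt w)
        refine le_trans (le_of_eq ?_) (mul_le_mul_left (area_poly q hq hψm) _)
        rw [← lintegral_mul_const' _ _ ENNReal.ofReal_ne_top]
        congr 1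
        ext w
        rw [hd, hqe, ← ENNReal.ofReal_mul (by positivity),
          ← ENNReal.ofReal_mul (mul_nonneg (by positivity) (hψ0 _))]
        congr 1
        ring
    _ = ENNReal.ofReal (D * (∫ p, ψ p) * ∫ a, n a) := by
        rw [lintegral_const_mul _ hnc.measurable.ennreal_ofReal,
          ← ofReal_integral_eq_lintegral_ofReal hψi (Filter.Eventually.of_forall hψ0),
          ← ofReal_integral_eq_lintegral_ofReal hni (Filter.Eventually.of_forall hn0),
          ENNReal.ofReal_mul (by positivity), ENNReal.ofReal_mul (by positivity)]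
        simp

end Pool.Agent.MP_161a40_an.H4
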