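import Mathlib

/-!
The certificate: a one-form on the plane of the logarithmic variable whose differential dominates
its square up to a term that changes sign under the translation by `π`.
-/

set_option autoImplicit false

open Complex Metric Set MeasureTheory Filter
open scoped Real Topology

namespace Pool.Agent.MP_161a40_an.H4

/-- `f` has gradient `(a, b)` at `θ`. -/
def HG (f : ℂ → ℝ) (θ : ℂ) (a b : ℝ) : Prop :=
  HasFDerivAt f (a • reCLM + b • imCLM : ℂ →L[ℝ] ℝ) θ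

namespace HG

variable {f g : ℂ → ℝ} {θ : ℂ} {a b c d : ℝ}

lemma one (h : HG f θ a b) : fderiv ℝ f θ 1 = a := by
  rw [HasFDerivAt.fderiv h]; simp

lemma eye (h : HG f θ a b) : fderiv ℝ f θ I = b := by
  rw [HasFDerivAt.fderiv h]; simp

lemma of {L : ℂ →L[ℝ] ℝ} (h : HasFDerivAt f L θ) (e : ∀ z, L z = a * z.re + b * z.im) :
    HG f θ a b :=
  h.congr_fderiv (ContinuousLinearMap.ext fun z => by simp [e])

lemma const (k : ℝ) : HG (fun _ => k) θ 0 0 := of (hasFDerivAt_const k θ) fun z => by simp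

lemma re : HG (fun x => x.re) θ 1 0 := of reCLM.hasFDerivAt fun z => by simp

lemma add (h : HG f θ a b) (k : HG g θ c d) : HG (fun x => f x + g x) θ (a + c) (b + d) :=
  of (HasFDerivAt.add h k) fun z => by simp; ring

lemma sub (h : HG f θ a b) (k : HG g θ c d) : HG (fun x => f x - g x) θ (a - c) (b - d) :=
  of (HasFDerivAt.sub h k) fun z => by simp; ring

lemma mul (h : HG f θ a b) (k : HG g θ c d) :
    HG (fun x => f x * g x) θ (a * g θ + f θ * c) (b * g θ + f θ * d) :=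
  of (HasFDerivAt.mul h k) fun z => by simp; ring

lemma comp {φ : ℝ → ℝ} {φ' : ℝ} (h : HG f θ a b) (k : HasDerivAt φ φ' (f θ)) :
    HG (fun x => φ (f x)) θ (φ' * a) (φ' * b) :=
  of (k.comp_hasFDerivAt θ h) fun z => by simp; ring

end HG

/-- Real part of `exp (i θ)`. -/
noncomputable def pp (θ : ℂ) : ℝ := (exp (I * θ)).re

/-- Imaginary part of `exp (i θ)`. -/
noncomputable def qq (θ : ℂ) : ℝ := (exp (I * θ)).im

/-- Squared distance from `exp (i θ)` to `5 / 12`. -/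
noncomputable def QQ (θ : ℂ) : ℝ := (pp θ - 5 / 12) * (pp θ - 5 / 12) + qq θ * qq θ

/-- Squared distance from `exp (i θ)` to `-5 / 12`. -/
noncomputable def QR (θ : ℂ) : ℝ := (pp θ + 5 / 12) * (pp θ + 5 / 12) + qq θ * qq θ

lemma hasFDerivAt_v (θ : ℂ) :
    HasFDerivAt (fun θ : ℂ => exp (I * θ)) ((exp (I * θ) * I) • (1 : ℂ →L[ℝ] ℂ)) θ := by
  have : HasDerivAt (fun θ : ℂ => exp (I * θ)) (exp (I * θ) * I) θ := by
    simpa using ((hasDerivAt_id θ).const_mul I).cexp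
  exact this.complexToReal_fderiv

lemma hg_pp (θ : ℂ) : HG pp θ (-qq θ) (-pp θ) :=
  HG.of (reCLM.hasFDerivAt.comp θ (hasFDerivAt_v θ)) fun z => by simp [pp, qq]; ring

lemma hg_qq (θ : ℂ) : HG qq θ (pp θ) (-qq θ) :=
  HG.of (imCLM.hasFDerivAt.comp θ (hasFDerivAt_v θ)) fun z => by simp [pp, qq]; ring

lemma contDiff_pp : ContDiff ℝ 1 pp :=
  reCLM.contDiff.comp (((contDiff_const.mul contDiff_id).cexp (𝕜 := ℝ)))

lemma contDiff_qq : ContDiff ℝ 1 qq :=
  imCLM.contDiff.comp (((contDiff_const.mul contDiff_id).cexp (𝕜 := ℝ)))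

lemma contDiff_QQ : ContDiff ℝ 1 QQ := by
  have := contDiff_pp
  have := contDiff_qq
  unfold QQ
  fun_prop

lemma contDiff_QR : ContDiff ℝ 1 QR := by
  have := contDiff_pp
  have := contDiff_qq
  unfold QR
  fun_prop

lemma pp_eq (θ : ℂ) : pp θ = Real.exp (-θ.im) * Real.cos θ.re := by
  simp [pp, exp_re]

lemma qq_eq (θ : ℂ) : qq θ = Real.exp (-θ.im) * Real.sin θ.re := by
  simp [qq, exp_im]

lemma pp_add_pi (θ : ℂ) : pp (θ + π) = -pp θ := by simp [pp_eq]

lemma qq_add_pi (θ : ℂ) : qq (θ + π) = -qq θ := by simp [qq_eq]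

lemma QQ_add_pi (θ : ℂ) : QQ (θ + π) = QR θ := by
  simp only [QQ, QR, pp_add_pi, qq_add_pi]; ring

lemma QR_add_pi (θ : ℂ) : QR (θ + π) = QQ θ := by
  simp only [QQ, QR, pp_add_pi, qq_add_pi]; ring

/-- The strip around the curve `|exp (i θ) - 5 / 12| = 13 / 12`. -/
def Strip (θ : ℂ) : Prop := |QQ θ - 169 / 144| ≤ 1 / 10000

lemma Strip.exp_ge {θ : ℂ} (h : Strip θ) : 1 / 2 ≤ Real.exp (-θ.im) := by
  have h1 := (abs_le.1 h).1
  rw [QQ, pp_eq, qq_eq] at h1
  by_contra hlt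
  have h2 := Real.exp_pos (-θ.im)
  have h3 := Real.sin_sq_add_cos_sq θ.re
  have h4 := Real.neg_one_le_cos θ.re
  set r := Real.exp (-θ.im)
  have h5 : (r * Real.cos θ.re - 5 / 12) * (r * Real.cos θ.re - 5 / 12)
      + r * Real.sin θ.re * (r * Real.sin θ.re) = r ^ 2 - 5 / 6 * (r * Real.cos θ.re) + 25 / 144 := by
    linear_combination r ^ 2 * h3
  rw [h5] at h1
  nlinarith

lemma Strip.QR_ge {θ : ℂ} (h : Strip θ) (hc : 7 / 25 ≤ Real.cos θ.re) :
    169 / 144 + 1 / 10000 ≤ QR θ := by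
  have h1 := (abs_le.1 h).1
  have h2 := h.exp_ge
  have h3 : 7 / 50 ≤ pp θ := by rw [pp_eq]; nlinarith
  unfold QQ at h1
  unfold QR
  linarith

lemma Strip.QR_le {θ : ℂ} (h : Strip θ) (hc : Real.cos θ.re ≤ -(7 / 25)) :
    QR θ ≤ 169 / 144 - 1 / 10000 := by
  have h1 := (abs_le.1 h).2
  have h2 := h.exp_ge
  have h3 : pp θ ≤ -(7 / 50) := by rw [pp_eq]; nlinarith
  unfold QQ at h1
  unfold QR
  linarith

lemma Strip.bounds {θ : ℂ} (h : Strip θ) :
    1 / 2 ≤ pp θ * pp θ + qq θ * qq θ - 5 / 12 * pp θ ∧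
      pp θ * pp θ + qq θ * qq θ - 5 / 12 * pp θ ≤ 2 ∧ qq θ ^ 2 ≤ 6 / 5 := by
  obtain ⟨h1, h2⟩ := abs_le.1 h
  unfold QQ at h1 h2
  have h3 : |pp θ - 5 / 12| ≤ 11 / 10 := abs_le.2
    (abs_le_of_sq_le_sq' (by nlinarith [mul_self_nonneg (qq θ)]) (by norm_num))
  obtain ⟨h4, h5⟩ := abs_le.1 h3
  refine ⟨by linarith, by linarith, by nlinarith [mul_self_nonneg (pp θ - 5 / 12)]⟩

lemma cos_ge {x : ℝ} (k : ℕ) (h : |x - k * (2 * π)| ≤ 6 / 5) : 7 / 25 ≤ Real.cos x := by
  rw [← Real.cos_sub_nat_mul_two_pi x k]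
  have := Real.one_sub_sq_div_two_le_cos (x := x - k * (2 * π))
  have h2 : (x - k * (2 * π)) ^ 2 ≤ (6 / 5) ^ 2 := sq_le_sq' (abs_le.1 h).1 (abs_le.1 h).2
  linarith

lemma cos_le {x : ℝ} (k : ℕ) (h : |x - π - k * (2 * π)| ≤ 6 / 5) : Real.cos x ≤ -(7 / 25) := by
  have := cos_ge k h
  rw [Real.cos_sub_pi] at this
  linarith

lemma exists_prim {s : ℝ → ℝ} {lo hi : ℝ} (hs : Continuous s) (hlt : lo < hi)
    (hz : ∀ x, x ≤ lo ∨ hi ≤ x → s x = 0) (hp : ∀ x ∈ Ioo lo hi, 0 < s x) :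
    ∃ (c : ℝ) (R : ℝ → ℝ), 0 < c ∧ (∀ x, HasDerivAt R (c * s x) x) ∧ ContDiff ℝ 1 R ∧
      (∀ x, x ≤ lo → R x = 0) ∧ (∀ x, hi ≤ x → R x = 1) ∧ ∀ x, 0 ≤ R x ∧ R x ≤ 1 := by
  have hI : 0 < ∫ t in lo..hi, s t :=
    intervalIntegral.intervalIntegral_pos_of_pos_on (hs.intervalIntegrable _ _) hp hlt
  have h0 : ∀ x, 0 ≤ s x := by
    intro x
    by_cases h : x ≤ lo ∨ hi ≤ x
    · exact (hz x h).ge
    · rw [not_or, not_le, not_le] at h
      exact (hp x h).le
  have hd : ∀ x, HasDerivAt (fun x => (∫ t in lo..hi, s t)⁻¹ * ∫ t in lo..x, s t)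
      ((∫ t in lo..hi, s t)⁻¹ * s x) x := fun x =>
    (hs.integral_hasStrictDerivAt lo x).hasDerivAt.const_mul _
  have hlo : ∀ x, x ≤ lo → (∫ t in lo..hi, s t)⁻¹ * ∫ t in lo..x, s t = 0 := by
    intro x hx
    rw [intervalIntegral.integral_congr (g := fun _ => 0) (b := x)]
    · simp
    · intro t ht
      rw [uIcc_of_ge hx] at ht
      exact hz t (Or.inl ht.2)
  have hhi : ∀ x, hi ≤ x → (∫ t in lo..hi, s t)⁻¹ * ∫ t in lo..x, s t = 1 := by
    intro x hx
    rw [← intervalIntegral.integral_add_adjacent_intervals (hs.intervalIntegrable lo hi)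
      (hs.intervalIntegrable hi x), intervalIntegral.integral_congr (g := fun _ => 0) (b := x)]
    · simp [hI.ne']
    · intro t ht
      rw [uIcc_of_le hx] at ht
      exact hz t (Or.inr ht.1)
  have hm : Monotone fun x => (∫ t in lo..hi, s t)⁻¹ * ∫ t in lo..x, s t :=
    monotone_of_deriv_nonneg (fun x => (hd x).differentiableAt) fun x => by
      rw [(hd x).deriv]; exact mul_nonneg (inv_pos.2 hI).le (h0 x)
  refine ⟨_, _, inv_pos.2 hI, hd, ?_, hlo, hhi, fun x => ⟨?_, ?_⟩⟩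
  · rw [contDiff_one_iff_deriv]
    refine ⟨fun x => (hd x).differentiableAt, ?_⟩
    rw [show deriv (fun x => (∫ t in lo..hi, s t)⁻¹ * ∫ t in lo..x, s t)
      = fun x => (∫ t in lo..hi, s t)⁻¹ * s x from funext fun x => (hd x).deriv]
    fun_prop
  · exact (hlo _ (min_le_right x lo)).ge.trans (hm (min_le_left x lo))
  · exact (hm (le_max_left x hi)).trans (hhi _ (le_max_right x hi)).le

/-- Alternating sum of four steps. -/
noncomputable def cf (st : ℝ → ℝ) (x : ℝ) : ℝ :=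
  st x - st (x - 2 * π) + st (x - 3 * π) - st (x - 4 * π)

/-- The coefficient function of the certificate. -/
noncomputable def Ff (S st R : ℝ → ℝ) (θ : ℂ) : ℝ :=
  S θ.re - st (θ.re - 3 * π) + (1 - R (QR θ)) * cf st θ.re

/-- First component of the certificate. -/
noncomputable def om1 (S st R ρ : ℝ → ℝ) (θ : ℂ) : ℝ :=
  Ff S st R θ * ρ (QQ θ) * (-(5 / 6) * qq θ)

/-- Second component of the certificate. -/
noncomputable def om2 (S st R ρ : ℝ → ℝ) (θ : ℂ) : ℝ :=
  Ff S st R θ * ρ (QQ θ) * (2 * (pp θ * pp θ + qq θ * qq θ - 5 / 12 * pp θ))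

lemma curl {S st R ρ S' st' ρ' : ℝ → ℝ} (hS : ∀ x, HasDerivAt S (S' x) x)
    (hst : ∀ x, HasDerivAt st (st' x) x) (hR : ∀ x, HasDerivAt R (ρ x) x)
    (hρ : ∀ x, HasDerivAt ρ (ρ' x) x) (θ : ℂ) :
    fderiv ℝ (om2 S st R ρ) θ 1 - fderiv ℝ (om1 S st R ρ) θ I
      = ρ (QQ θ) * (2 * (pp θ * pp θ + qq θ * qq θ - 5 / 12 * pp θ))
          * (S' θ.re - st' (θ.re - 3 * π) + (1 - R (QR θ)) * cf st' θ.re)
        + 10 / 3 * cf st θ.re * (ρ (QQ θ) * ρ (QR θ)) * qq θ * (pp θ * pp θ + qq θ * qq θ) := by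
  have p := hg_pp θ
  have q := hg_qq θ
  have hQ : HG QQ θ _ _ := ((p.sub (HG.const _)).mul (p.sub (HG.const _))).add (q.mul q)
  have hQ' : HG QR θ _ _ := ((p.add (HG.const _)).mul (p.add (HG.const _))).add (q.mul q)
  have hs : ∀ k : ℝ, HG (fun x : ℂ => st (x.re - k)) θ _ _ := fun k =>
    (HG.re.sub (HG.const k)).comp (hst _)
  have hc : HG (fun x : ℂ => cf st x.re) θ _ _ :=
    (((HG.re.comp (hst _)).sub (hs _)).add (hs _)).sub (hs _)
  have hF : HG (Ff S st R) θ _ _ :=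
    ((HG.re.comp (hS _)).sub (hs _)).add (((HG.const 1).sub (hQ'.comp (hR _))).mul hc)
  have h1 : HG (om1 S st R ρ) θ _ _ := (hF.mul (hQ.comp (hρ _))).mul ((HG.const _).mul q)
  have h2 : HG (om2 S st R ρ) θ _ _ := (hF.mul (hQ.comp (hρ _))).mul
    ((HG.const _).mul (((p.mul p).add (q.mul q)).sub ((HG.const _).mul p)))
  rw [h1.eye, h2.one]
  unfold cf
  ring

/-- The closed region carrying the certificate. -/
def Reg (θ : ℂ) : Prop := Strip θ ∧ 1 ≤ θ.re ∧ θ.re ≤ 4 * π - 1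

lemma lip {S S' : ℝ → ℝ} {L : ℝ} (hS : ∀ x, HasDerivAt S (S' x) x) (hL : ∀ x, |S' x| ≤ L)
    (x y : ℝ) : (S x - S y) ^ 2 ≤ L ^ 2 * (x - y) ^ 2 := by
  have := Convex.norm_image_sub_le_of_norm_hasDerivWithin_le (s := univ) (f := S) (f' := S')
    (fun x _ => (hS x).hasDerivWithinAt) (fun x _ => hL x) convex_univ (mem_univ y) (mem_univ x)
  rw [Real.norm_eq_abs, Real.norm_eq_abs] at this
  rw [← mul_pow, ← sq_abs (S x - S y), ← sq_abs (L * (x - y)), abs_mul]
  refine pow_le_pow_left₀ (abs_nonneg _) (this.trans ?_) 2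
  exact mul_le_mul_of_nonneg_right (le_abs_self L) (abs_nonneg _)

theorem cert : ∃ (ω1 ω2 κS κT : ℂ → ℝ) (C : ℝ), 0 < C ∧ ContDiff ℝ 1 ω1 ∧ ContDiff ℝ 1 ω2 ∧
    (∀ θ, ¬ Reg θ → ω1 θ = 0 ∧ ω2 θ = 0) ∧
    (∀ θ, fderiv ℝ ω2 θ 1 - fderiv ℝ ω1 θ I = κS θ + κT θ) ∧
    (∀ θ, ω1 θ ^ 2 + ω2 θ ^ 2 ≤ C * κS θ) ∧
    (∀ θ : ℂ, 0 < θ.re → θ.re ≤ π →
      (κT θ = 0 ∧ κT (θ + π) = 0 ∧ κT (θ + π + π) = 0 ∧ κT (θ + π + π + π) = 0) ∨
      (Strip θ ∧ Strip (θ + π) ∧ 0 ≤ qq θ ∧ 0 ≤ κT θ ∧ κT (θ + π) = -κT θ ∧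
        κT (θ + π + π) = 0 ∧ κT (θ + π + π + π) = -κT θ)) ∧
    ∀ θ, QQ θ = 169 / 144 → 1 < θ.re → θ.re < 4 * π - 1 → 0 < κS θ := by
  have hπ := Real.pi_gt_three
  have hπ' := Real.pi_lt_four
  let b : ContDiffBump (169 / 144 : ℝ) := ⟨1 / 20000, 1 / 10000, by norm_num, by norm_num⟩
  have hb : ContDiff ℝ 1 b := b.contDiff
  have hb0 : ∀ x, ¬ |x - 169 / 144| < 1 / 10000 → b x = 0 := fun x hx =>
    b.zero_of_le_dist (by rw [Real.dist_eq]; exact not_lt.1 hx)
  obtain ⟨c, R, hc, hR, hRc, hR0, hR1, hR01⟩ := exists_prim (s := b) (lo := 169 / 144 - 1 / 10000)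
    (hi := 169 / 144 + 1 / 10000) hb.continuous (by norm_num)
    (fun x hx => hb0 x fun h => by
      obtain ⟨h1, h2⟩ := abs_lt.1 h
      rcases hx with hx | hx <;> linarith)
    (fun x hx => b.pos_of_mem_ball (by
      rw [mem_ball, Real.dist_eq, abs_lt]
      exact ⟨by change -(1 / 10000) < _; linarith [hx.1], by change _ < 1 / 10000; linarith [hx.2]⟩))
  have hmax : ∀ lo hi x : ℝ, lo ≤ hi → x ≤ lo ∨ hi ≤ x → max 0 ((x - lo) * (hi - x)) = 0 := by
    intro lo hi x h hx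
    rcases hx with hx | hx
    · exact max_eq_left (mul_nonpos_of_nonpos_of_nonneg (by linarith) (by linarith))
    · exact max_eq_left (mul_nonpos_of_nonneg_of_nonpos (by linarith) (by linarith))
  have hpos : ∀ lo hi : ℝ, ∀ x ∈ Ioo lo hi, 0 < max 0 ((x - lo) * (hi - x)) := fun lo hi x hx =>
    lt_max_of_lt_right (mul_pos (by linarith [hx.1]) (by linarith [hx.2]))
  obtain ⟨d, S, hd, hS, hSc, hS0, hS1, hS01⟩ := exists_prim
    (s := fun x => max 0 ((x - 1) * (4 * π - 1 - x))) (lo := 1) (hi := 4 * π - 1) (by fun_prop)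
    (by linarith) (fun x hx => hmax _ _ x (by linarith) hx) (hpos _ _)
  obtain ⟨e, st, he, hst, hstc, hst0, hst1, hst01⟩ := exists_prim
    (s := fun x => max 0 ((x - -1) * (1 - x))) (lo := -1) (hi := 1) (by fun_prop)
    (by linarith) (fun x hx => hmax _ _ x (by linarith) hx) (hpos _ _)
  set ρ : ℝ → ℝ := fun x => c * b x with hρ
  have hρc : ContDiff ℝ 1 ρ := contDiff_const.mul hb
  have hρ0 : ∀ x, 0 ≤ ρ x := fun x => mul_nonneg hc.le b.nonneg
  have hρ1 : ∀ x, ρ x ≤ c := fun x => mul_le_of_le_one_right hc.le b.le_one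
  have hρs : ∀ θ, ¬ Strip θ → ρ (QQ θ) = 0 := fun θ h => by
    simp only [hρ]
    rw [hb0 _ fun h' => h h'.le, mul_zero]
  have hT0 : ∀ θ, Strip θ → ∀ k : ℕ, |θ.re - k * (2 * π)| ≤ 6 / 5 → 1 - R (QR θ) = 0 :=
    fun θ h k hk => by rw [hR1 _ (h.QR_ge (cos_ge k hk)), sub_self]
  have hT1 : ∀ θ, Strip θ → ∀ k : ℕ, |θ.re - π - k * (2 * π)| ≤ 6 / 5 → 1 - R (QR θ) = 1 :=
    fun θ h k hk => by rw [hR0 _ (h.QR_le (cos_le k hk)), sub_zero]
  have hFc : ContDiff ℝ 1 (Ff S st R) := by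
    have h1 := contDiff_QR
    have h2 : ContDiff ℝ 1 fun θ : ℂ => θ.re := reCLM.contDiff
    unfold Ff cf
    fun_prop
  have hL : ∀ x, |d * max 0 ((x - 1) * (4 * π - 1 - x))| ≤ d * 49 := by
    intro x
    rw [abs_of_nonneg (mul_nonneg hd.le (le_max_left _ _))]
    refine mul_le_mul_of_nonneg_left (max_le (by norm_num) ?_) hd.le
    nlinarith [sq_nonneg (x - 2 * π)]
  have hF : ∀ θ, Strip θ → Ff S st R θ ^ 2
      ≤ ((d * 49) ^ 2 + 225) * max 0 ((θ.re - 1) * (4 * π - 1 - θ.re)) := by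
    intro θ h
    have m0 := le_max_left 0 ((θ.re - 1) * (4 * π - 1 - θ.re))
    have m1 := le_max_right 0 ((θ.re - 1) * (4 * π - 1 - θ.re))
    have m2 : 0 ≤ (d * 49) ^ 2 := by positivity
    unfold Ff
    rcases le_or_gt θ.re (-1) with h1 | h1
    · unfold cf
      rw [hS0 _ (by linarith), hst0 _ h1, hst0 (θ.re - 2 * π) (by linarith),
        hst0 (θ.re - 3 * π) (by linarith), hst0 (θ.re - 4 * π) (by linarith)]
      simp only [sub_self, add_zero, mul_zero]
      nlinarith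
    rcases le_or_gt θ.re (6 / 5) with h2 | h2
    · rw [hT0 θ h 0 (abs_le.2 ⟨by simp; linarith, by simpa using h2⟩),
        hst0 (θ.re - 3 * π) (by linarith)]
      simp only [sub_zero, zero_mul, add_zero]
      rcases le_or_gt θ.re 1 with h3 | h3
      · rw [hS0 _ h3]
        nlinarith
      · have h4 := lip hS hL θ.re 1
        rw [hS0 1 le_rfl, sub_zero] at h4
        have h5 : (θ.re - 1) ^ 2 ≤ (θ.re - 1) * (4 * π - 1 - θ.re) := by nlinarith
        nlinarith [mul_le_mul_of_nonneg_left (h5.trans m1) m2]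
    rcases le_or_gt θ.re (4 * π - 6 / 5) with h3 | h3
    · have h4 : 1 / 25 ≤ (θ.re - 1) * (4 * π - 1 - θ.re) := by nlinarith
      have h5 : |cf st θ.re| ≤ 2 := by
        unfold cf
        rw [abs_le]
        constructor <;> linarith [hst01 θ.re, hst01 (θ.re - 2 * π), hst01 (θ.re - 3 * π),
          hst01 (θ.re - 4 * π)]
      have h6 : |(1 - R (QR θ)) * cf st θ.re| ≤ 1 * 2 := by
        rw [abs_mul]
        refine mul_le_mul (abs_le.2 ⟨?_, ?_⟩) h5 (abs_nonneg _) zero_le_one <;>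
          linarith [hR01 (QR θ)]
      have h7 := abs_le.1 h6
      have h8 : (S θ.re - st (θ.re - 3 * π) + (1 - R (QR θ)) * cf st θ.re) ^ 2 ≤ 3 ^ 2 :=
        sq_le_sq' (by linarith [hS01 θ.re, hst01 (θ.re - 3 * π)])
          (by linarith [hS01 θ.re, hst01 (θ.re - 3 * π)])
      nlinarith [mul_nonneg m2 m0]
    rcases le_or_gt θ.re (4 * π + 1) with h4 | h4
    · rw [hT0 θ h 2 (abs_le.2 ⟨by push_cast; linarith, by push_cast; linarith⟩),
        hst1 (θ.re - 3 * π) (by linarith)]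
      simp only [zero_mul, add_zero]
      rcases le_or_gt (4 * π - 1) θ.re with h5 | h5
      · rw [hS1 _ h5]
        nlinarith
      · have h6 := lip hS hL θ.re (4 * π - 1)
        rw [hS1 _ le_rfl] at h6
        have h7 : (θ.re - (4 * π - 1)) ^ 2 ≤ (θ.re - 1) * (4 * π - 1 - θ.re) := by nlinarith
        nlinarith [mul_le_mul_of_nonneg_left (h7.trans m1) m2]
    · unfold cf
      rw [hS1 _ (by linarith), hst1 θ.re (by linarith), hst1 (θ.re - 2 * π) (by linarith),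
        hst1 (θ.re - 3 * π) (by linarith), hst1 (θ.re - 4 * π) (by linarith)]
      simp only [sub_self, zero_add, mul_zero]
      nlinarith
  refine ⟨om1 S st R ρ, om2 S st R ρ,
    fun θ => ρ (QQ θ) * (2 * (pp θ * pp θ + qq θ * qq θ - 5 / 12 * pp θ))
      * (d * max 0 ((θ.re - 1) * (4 * π - 1 - θ.re))),
    fun θ => 10 / 3 * cf st θ.re * (ρ (QQ θ) * ρ (QR θ)) * qq θ * (pp θ * pp θ + qq θ * qq θ),
    17 * c * ((d * 49) ^ 2 + 225) / d, by positivity, ?_, ?_, ?_, ?_, ?_, ?_, ?_⟩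
  · have := contDiff_QQ
    have := contDiff_qq
    unfold om1
    fun_prop
  · have := contDiff_QQ
    have := contDiff_qq
    have := contDiff_pp
    unfold om2
    fun_prop
  · intro θ hθ
    by_cases h : Strip θ
    · have h1 := hF θ h
      rw [hmax _ _ _ (by linarith) (by
        by_contra hcon
        rw [not_or, not_le, not_le] at hcon
        exact hθ ⟨h, hcon.1.le, hcon.2.le⟩), mul_zero] at h1
      have h2 : Ff S st R θ = 0 := pow_eq_zero_iff two_ne_zero |>.1 (le_antisymm h1 (sq_nonneg _))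
      simp [om1, om2, h2]
    · simp [om1, om2, hρs θ h]
  · intro θ
    rw [curl hS hst hR (fun x => (hρc.differentiable one_ne_zero x).hasDerivAt)]
    by_cases h : Strip θ
    · have k0 : ∀ k : ℕ, (1 - R (QR θ)) * (e * max 0 ((θ.re - k * (2 * π) - -1)
          * (1 - (θ.re - k * (2 * π))))) = 0 := by
        intro k
        by_cases hk : θ.re - k * (2 * π) ≤ -1 ∨ 1 ≤ θ.re - k * (2 * π)
        · rw [hmax _ _ _ (by norm_num) hk]; simp
        · rw [not_or, not_le, not_le] at hk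
          rw [hT0 θ h k (abs_le.2 ⟨by linarith [hk.1], by linarith [hk.2]⟩), zero_mul]
      have k1 : R (QR θ) * (e * max 0 ((θ.re - 3 * π - -1) * (1 - (θ.re - 3 * π)))) = 0 := by
        by_cases hk : θ.re - 3 * π ≤ -1 ∨ 1 ≤ θ.re - 3 * π
        · rw [hmax _ _ _ (by norm_num) hk]; simp
        · rw [not_or, not_le, not_le] at hk
          have := hT1 θ h 1 (abs_le.2 ⟨by push_cast; linarith [hk.1], by push_cast; linarith [hk.2]⟩)
          rw [sub_eq_self.1 this, zero_mul]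
      have k2 := k0 0
      have k3 := k0 1
      have k4 := k0 2
      simp only [Nat.cast_zero, zero_mul, sub_zero] at k2
      simp only [Nat.cast_one, one_mul] at k3
      rw [show ((2 : ℕ) : ℝ) * (2 * π) = 4 * π by push_cast; ring] at k4
      unfold cf
      linear_combination
        (ρ (QQ θ) * (2 * (pp θ * pp θ + qq θ * qq θ - 5 / 12 * pp θ))) * (k2 - k3 - k1 - k4)
    · have h' : c * b (QQ θ) = 0 := hρs θ h
      beta_reduce
      rw [hρs θ h, h']
      simp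
  · intro θ
    by_cases h : Strip θ
    · obtain ⟨b1, b2, b3⟩ := h.bounds
      have h1 := hF θ h
      have h2 := hρ0 (QQ θ)
      have h3 := hρ1 (QQ θ)
      have m0 := le_max_left 0 ((θ.re - 1) * (4 * π - 1 - θ.re))
      unfold om1 om2
      beta_reduce
      set n := pp θ * pp θ + qq θ * qq θ - 5 / 12 * pp θ
      set m := max 0 ((θ.re - 1) * (4 * π - 1 - θ.re))
      set K := (d * 49) ^ 2 + 225
      have hK : 0 < K := by positivity
      have h4 : (-(5 / 6) * qq θ) ^ 2 + (2 * n) ^ 2 ≤ 17 := by nlinarith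
      calc (Ff S st R θ * ρ (QQ θ) * (-(5 / 6) * qq θ)) ^ 2 + (Ff S st R θ * ρ (QQ θ) * (2 * n)) ^ 2
          = (Ff S st R θ ^ 2 * ρ (QQ θ) * ((-(5 / 6) * qq θ) ^ 2 + (2 * n) ^ 2)) * (ρ (QQ θ) * 1) := by
            ring
        _ ≤ (K * m * c * 17) * (ρ (QQ θ) * (2 * n)) := by
            refine mul_le_mul (mul_le_mul (mul_le_mul h1 h3 h2 (by positivity)) h4 (by positivity)
              (by positivity)) (mul_le_mul_of_nonneg_left (by linarith) h2) (by positivity)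
              (by positivity)
        _ = 17 * c * K / d * (ρ (QQ θ) * (2 * n) * (d * m)) := by field_simp
    · simp [om1, om2, hρs θ h]
  · intro θ h0 h1
    simp only [QQ_add_pi, QR_add_pi, pp_add_pi, qq_add_pi]
    by_cases h : Strip θ ∧ Strip (θ + π)
    · right
      have a1 : 1 ≤ θ.re := by
        by_contra hcon
        have k1 := h.1.QR_ge (cos_ge 0 (abs_le.2 ⟨by simp; linarith, by simp; linarith⟩))
        have k2 := h.1.exp_ge
        have k3 := cos_ge (x := θ.re) 0 (abs_le.2 ⟨by simp; linarith, by simp; linarith⟩)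
        have k4 : 7 / 50 ≤ pp θ := by rw [pp_eq]; nlinarith
        have k5 := (abs_le.1 h.1).1
        have k6 := (abs_le.1 h.2).2
        rw [QQ_add_pi] at k6
        unfold QQ at k5
        unfold QR at k6
        linarith
      have a2 : θ.re ≤ π - 1 := by
        by_contra hcon
        have k2 := h.1.exp_ge
        have k3 := cos_le (x := θ.re) 0 (abs_le.2 ⟨by simp; linarith, by simp; linarith⟩)
        have k4 : pp θ ≤ -(7 / 50) := by rw [pp_eq]; nlinarith
        have k5 := (abs_le.1 h.1).2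
        have k6 := (abs_le.1 h.2).1
        rw [QQ_add_pi] at k6
        unfold QQ at k5
        unfold QR at k6
        linarith
      have a3 : 0 ≤ qq θ := by
        rw [qq_eq]
        exact mul_nonneg (Real.exp_pos _).le (Real.sin_nonneg_of_nonneg_of_le_pi h0.le h1)
      have c0 : cf st θ.re = 1 := by
        unfold cf
        rw [hst1 _ a1, hst0 (θ.re - 2 * π) (by linarith), hst0 (θ.re - 3 * π) (by linarith),
          hst0 (θ.re - 4 * π) (by linarith)]
        norm_num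
      have c1 : cf st (θ.re + π) = 1 := by
        unfold cf
        rw [hst1 (θ.re + π) (by linarith), hst0 (θ.re + π - 2 * π) (by linarith),
          hst0 (θ.re + π - 3 * π) (by linarith), hst0 (θ.re + π - 4 * π) (by linarith)]
        norm_num
      have c2 : cf st (θ.re + π + π) = 0 := by
        unfold cf
        rw [hst1 (θ.re + π + π) (by linarith), hst1 (θ.re + π + π - 2 * π) (by linarith),
          hst0 (θ.re + π + π - 3 * π) (by linarith), hst0 (θ.re + π + π - 4 * π) (by linarith)]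
        norm_num
      have c3 : cf st (θ.re + π + π + π) = 1 := by
        unfold cf
        rw [hst1 (θ.re + π + π + π) (by linarith), hst1 (θ.re + π + π + π - 2 * π) (by linarith),
          hst1 (θ.re + π + π + π - 3 * π) (by linarith),
          hst0 (θ.re + π + π + π - 4 * π) (by linarith)]
        norm_num
      simp only [add_re, ofReal_re, c0, c1, c2, c3]
      have := hρ0 (QQ θ)
      have := hρ0 (QR θ)
      have := mul_self_nonneg (pp θ)
      have := mul_self_nonneg (qq θ)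
      exact ⟨h.1, h.2, a3, by positivity, by ring, by ring, by ring⟩
    · left
      have : ρ (QQ θ) * ρ (QR θ) = 0 := by
        rcases not_and_or.1 h with h | h
        · rw [hρs θ h, zero_mul]
        · rw [← QQ_add_pi, hρs _ h, mul_zero]
      simp only [mul_comm (ρ (QR θ)) (ρ (QQ θ)), this]
      simp
  · intro θ h h1 h2
    have hs : Strip θ := by unfold Strip; rw [h]; norm_num
    have h3 := hs.bounds.1
    have h4 := hpos 1 (4 * π - 1) θ.re ⟨h1, h2⟩
    have h5 : 0 < ρ (QQ θ) := by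
      rw [h]
      exact mul_pos hc (b.pos_of_mem_ball (mem_ball_self b.rOut_pos))
    have h6 : 0 < pp θ * pp θ + qq θ * qq θ - 5 / 12 * pp θ := by linarith
    positivity

end Pool.Agent.MP_161a40_an.H4
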