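import Pool.Agent.MP_161a40_an.H4.Area

/-!
The parabolicity lemma: on the fibres of a function that is polynomial in the second variable, a
one-form whose square is dominated by its differential is closed.
-/

set_option autoImplicit false

open Complex Metric Set MeasureTheory Filter
open scoped Real Topology

namespace Pool.Agent.MP_161a40_an.H4

lemma contDiff_real {c : ℂ × ℂ → ℂ} (hc : Differentiable ℂ c) : ContDiff ℝ 1 c :=
  (contDiff_entire 1 hc).restrict_scalars ℝ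

lemma ibp1 {Φ : ℂ × ℂ → ℝ} (hΦ : ContDiff ℝ 1 Φ) (hs : HasCompactSupport Φ) {c : ℂ × ℂ → ℂ}
    (hc : Differentiable ℂ c) (e : ℂ × ℂ) :
    ∫ ζ, fderiv ℝ Φ ζ (c ζ • e) = -2 * ∫ ζ, (fderiv ℂ c ζ e).re * Φ ζ := by
  haveI : (volume : Measure (ℂ × ℂ)).IsAddHaarMeasure :=
    Measure.prod.instIsAddHaarMeasure volume volume
  have hcc := hc.continuous
  have hΦc := hΦ.continuous
  have hΦ' : Continuous (fderiv ℝ Φ) := hΦ.continuous_fderiv one_ne_zero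
  have hc' : Continuous fun ζ => fderiv ℂ c ζ e := (osgood hc e).continuous
  have hre : ∀ ζ, HasFDerivAt (fun ζ => (c ζ).re)
      (reCLM.comp ((fderiv ℂ c ζ).restrictScalars ℝ)) ζ := fun ζ =>
    reCLM.hasFDerivAt.comp ζ ((hc ζ).hasFDerivAt.restrictScalars ℝ)
  have him : ∀ ζ, HasFDerivAt (fun ζ => (c ζ).im)
      (imCLM.comp ((fderiv ℂ c ζ).restrictScalars ℝ)) ζ := fun ζ =>
    imCLM.hasFDerivAt.comp ζ ((hc ζ).hasFDerivAt.restrictScalars ℝ)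
  have e1 : ∀ ζ, fderiv ℝ (fun ζ => (c ζ).re) ζ e = (fderiv ℂ c ζ e).re := fun ζ => by
    rw [(hre ζ).fderiv]; simp
  have e2 : ∀ ζ, fderiv ℝ (fun ζ => (c ζ).im) ζ (I • e) = (fderiv ℂ c ζ e).re := fun ζ => by
    rw [(him ζ).fderiv]
    simp only [ContinuousLinearMap.comp_apply, ContinuousLinearMap.coe_restrictScalars',
      map_smul, smul_eq_mul, imCLM_apply]
    simp
  have i1 : Integrable fun ζ => (fderiv ℂ c ζ e).re * Φ ζ :=
    Continuous.integrable_of_hasCompactSupport (by fun_prop) hs.mul_left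
  have i2 : Integrable fun ζ => (c ζ).re * fderiv ℝ Φ ζ e :=
    Continuous.integrable_of_hasCompactSupport (by fun_prop) (hs.fderiv_apply ℝ e).mul_left
  have i3 : Integrable fun ζ => (c ζ).im * fderiv ℝ Φ ζ (I • e) :=
    Continuous.integrable_of_hasCompactSupport (by fun_prop) (hs.fderiv_apply ℝ _).mul_left
  have k1 := integral_mul_fderiv_eq_neg_fderiv_mul_of_integrable (μ := volume)
    (f := fun ζ => (c ζ).re) (g := Φ) (v := e) (by simpa only [e1] using i1) i2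
    (Continuous.integrable_of_hasCompactSupport (by fun_prop) hs.mul_left)
    (fun ζ _ => (hre ζ).differentiableAt) (fun ζ _ => hΦ.differentiable one_ne_zero ζ)
  have k2 := integral_mul_fderiv_eq_neg_fderiv_mul_of_integrable (μ := volume)
    (f := fun ζ => (c ζ).im) (g := Φ) (v := I • e) (by simpa only [e2] using i1) i3
    (Continuous.integrable_of_hasCompactSupport (by fun_prop) hs.mul_left)
    (fun ζ _ => (him ζ).differentiableAt) (fun ζ _ => hΦ.differentiable one_ne_zero ζ)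
  simp only [e1] at k1
  simp only [e2] at k2
  have e3 : ∀ ζ, fderiv ℝ Φ ζ (c ζ • e)
      = (c ζ).re * fderiv ℝ Φ ζ e + (c ζ).im * fderiv ℝ Φ ζ (I • e) := by
    intro ζ
    have : c ζ • e = (c ζ).re • e + (c ζ).im • (I • e) := by
      rw [← Complex.coe_smul, ← Complex.coe_smul, smul_smul, ← add_smul, re_add_im]
    rw [this, map_add, map_smul, map_smul, smul_eq_mul, smul_eq_mul]
  simp only [e3]
  rw [integral_add i2 i3, k1, k2]
  ring

/-- The Hamiltonian vector field of `P`, tangent to the fibres of `P`. -/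
noncomputable def vX (P : ℂ × ℂ → ℂ) (ζ : ℂ × ℂ) : ℂ × ℂ := (d2 P ζ, -d1 P ζ)

lemma fderiv_vX (P : ℂ × ℂ → ℂ) (ζ : ℂ × ℂ) (l : ℂ) : fderiv ℂ P ζ (l • vX P ζ) = 0 := by
  rw [map_smul, fderiv_apply_eq]
  simp only [vX, smul_eq_mul]
  ring

lemma differentiable_vX {P : ℂ × ℂ → ℂ} (hP : Differentiable ℂ P) : Differentiable ℂ (vX P) :=
  (differentiable_d2 hP).prodMk (differentiable_d1 hP).neg

lemma div_free {P : ℂ × ℂ → ℂ} (hP : Differentiable ℂ P) {Φ : ℂ × ℂ → ℝ} (hΦ : ContDiff ℝ 1 Φ)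
    (hs : HasCompactSupport Φ) (l : ℂ) : ∫ ζ, fderiv ℝ Φ ζ (l • vX P ζ) = 0 := by
  have h1 := differentiable_d1 hP
  have h2 := differentiable_d2 hP
  have hΦ' : Continuous (fderiv ℝ Φ) := hΦ.continuous_fderiv one_ne_zero
  have e : ∀ ζ, fderiv ℝ Φ ζ (l • vX P ζ) = fderiv ℝ Φ ζ ((l * d2 P ζ) • ((1, 0) : ℂ × ℂ))
      + fderiv ℝ Φ ζ ((-l * d1 P ζ) • ((0, 1) : ℂ × ℂ)) := by
    intro ζ
    rw [← map_add]
    congr 1
    ext <;> simp [vX]
  have hi : ∀ {c : ℂ × ℂ → ℂ}, Differentiable ℂ c → ∀ v : ℂ × ℂ,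
      Integrable fun ζ => fderiv ℝ Φ ζ (c ζ • v) := by
    intro c hc v
    have := hc.continuous
    refine Continuous.integrable_of_hasCompactSupport (by fun_prop) ?_
    refine (hs.fderiv ℝ).mono fun ζ hζ h0 => hζ ?_
    simp [h0]
  simp only [e]
  rw [integral_add (hi (h2.const_mul l) _) (hi (h1.const_mul (-l)) _),
    ibp1 hΦ hs (h2.const_mul l), ibp1 hΦ hs (h1.const_mul (-l))]
  have e2 : ∀ ζ, (fderiv ℂ (fun ζ => -l * d1 P ζ) ζ (0, 1)).re * Φ ζ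
      = -((fderiv ℂ (fun ζ => l * d2 P ζ) ζ (1, 0)).re * Φ ζ) := by
    intro ζ
    rw [fderiv_const_mul (h1 ζ), fderiv_const_mul (h2 ζ)]
    have := d1_d2 hP ζ
    simp only [_root_.smul_apply, smul_eq_mul]
    change (-l * d2 (d1 P) ζ).re * Φ ζ = -((l * d1 (d2 P) ζ).re * Φ ζ)
    rw [this, neg_mul, neg_re, neg_mul]
  simp only [e2, integral_neg]
  ring

lemma glob {P : ℂ × ℂ → ℂ} (hP : Differentiable ℂ P) {ψ : ℂ → ℝ} (hψ : ContDiff ℝ 1 ψ)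
    {O : Set ℂ} (hO : tsupport ψ ⊆ O) {E : ℂ × ℂ → ℝ} (hE : ∀ ζ, P ζ ∈ O → ContDiffAt ℝ 1 E ζ) :
    ContDiff ℝ 1 (fun ζ => ψ (P ζ) * E ζ) ∧ ∀ ζ v, fderiv ℂ P ζ v = 0 →
      fderiv ℝ (fun ζ => ψ (P ζ) * E ζ) ζ v = ψ (P ζ) * fderiv ℝ E ζ v := by
  have hz : ∀ ζ, P ζ ∉ O → (fun ζ => ψ (P ζ) * E ζ) =ᶠ[𝓝 ζ] fun _ => 0 := by
    intro ζ hζ
    have h1 : ψ =ᶠ[𝓝 (P ζ)] 0 := notMem_tsupport_iff_eventuallyEq.1 fun h => hζ (hO h)
    filter_upwards [hP.continuous.continuousAt.eventually h1] with x hx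
    simp [hx]
  have hc : ContDiff ℝ 1 fun ζ => ψ (P ζ) := hψ.comp (contDiff_real hP)
  refine ⟨contDiff_iff_contDiffAt.2 fun ζ => ?_, fun ζ v hv => ?_⟩
  · by_cases hζ : P ζ ∈ O
    · exact hc.contDiffAt.mul (hE ζ hζ)
    · exact contDiffAt_const.congr_of_eventuallyEq (hz ζ hζ)
  · by_cases hζ : P ζ ∈ O
    · have h1 : HasFDerivAt (fun ζ => ψ (P ζ))
          ((fderiv ℝ ψ (P ζ)).comp ((fderiv ℂ P ζ).restrictScalars ℝ)) ζ :=
        (hψ.differentiable one_ne_zero (P ζ)).hasFDerivAt.comp ζ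
          ((hP ζ).hasFDerivAt.restrictScalars ℝ)
      have h2 := ((hE ζ hζ).differentiableAt one_ne_zero).hasFDerivAt
      have h3 := (h1.mul h2).fderiv
      rw [show (fun ζ => ψ (P ζ) * E ζ) = (fun ζ => ψ (P ζ)) * E from rfl, h3]
      simp [hv]
    · have h1 : ψ (P ζ) = 0 := image_eq_zero_of_notMem_tsupport fun h => hζ (hO h)
      rw [(hz ζ hζ).fderiv_eq, h1]
      simp

/-- Square of the length of the gradient of a real function on the plane. -/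
noncomputable def gradSq (χ : ℂ → ℝ) (a : ℂ) : ℝ :=
  fderiv ℝ χ a 1 ^ 2 + fderiv ℝ χ a I ^ 2

lemma real_lin (L : ℂ →L[ℝ] ℝ) (u : ℂ) : L u = u.re * L 1 + u.im * L I := by
  have : u = u.re • (1 : ℂ) + u.im • I := by
    simp
  conv_lhs => rw [this]
  rw [map_add, map_smul, map_smul, smul_eq_mul, smul_eq_mul]

lemma gradSq_mul (χ : ℂ → ℝ) (a u : ℂ) :
    fderiv ℝ χ a u ^ 2 + fderiv ℝ χ a (I * u) ^ 2 = gradSq χ a * ‖u‖ ^ 2 := by
  rw [real_lin _ u, real_lin _ (I * u), gradSq, Complex.sq_norm, Complex.normSq_apply]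
  simp only [mul_re, mul_im, I_re, I_im]
  ring

lemma exists_cutoff : ∃ (χ : ℕ → ℂ → ℝ) (N : ℝ), (∀ k, ContDiff ℝ 1 (χ k)) ∧
    (∀ k a, 0 ≤ χ k a ∧ χ k a ≤ 1) ∧ (∀ k a, ‖a‖ ≤ 2 ^ k → χ k a = 1) ∧
    (∀ k a, 2 ^ (k + 1) ≤ ‖a‖ → χ k a = 0) ∧ ∀ k, ∫ a, gradSq (χ k) a = N := by
  let b : ContDiffBump (0 : ℂ) := ⟨1, 2, one_pos, one_lt_two⟩
  have hb : ContDiff ℝ 1 b := b.contDiff
  have hn : ∀ (k : ℕ) (a : ℂ), ‖((2 : ℝ) ^ k)⁻¹ • a‖ = ‖a‖ / 2 ^ k := by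
    intro k a
    rw [norm_smul, norm_inv, norm_pow, Real.norm_ofNat, inv_mul_eq_div]
  refine ⟨fun k a => b (((2 : ℝ) ^ k)⁻¹ • a), ∫ a, gradSq b a,
    fun k => hb.comp (contDiff_const_smul _), fun k a => ⟨b.nonneg, b.le_one⟩,
    fun k a ha => b.one_of_mem_closedBall ?_, fun k a ha => b.zero_of_le_dist ?_, fun k => ?_⟩
  · rw [mem_closedBall_zero_iff, hn, div_le_iff₀ (by positivity)]
    simpa [b] using ha
  · rw [dist_zero_right, hn, le_div_iff₀ (by positivity)]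
    rw [pow_succ'] at ha
    exact ha
  · have h1 : ∀ a, gradSq (fun a => b (((2 : ℝ) ^ k)⁻¹ • a)) a
        = (((2 : ℝ) ^ k)⁻¹) ^ 2 * gradSq b (((2 : ℝ) ^ k)⁻¹ • a) := by
      intro a
      have h2 := ((hb.differentiable one_ne_zero (((2 : ℝ) ^ k)⁻¹ • a)).hasFDerivAt.comp a
        ((hasFDerivAt_id a).const_smul ((2 : ℝ) ^ k)⁻¹)).fderiv
      unfold gradSq
      rw [show (fun a : ℂ => b (((2 : ℝ) ^ k)⁻¹ • a)) = b ∘ (HSMul.hSMul ((2 : ℝ) ^ k)⁻¹) from rfl,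
        h2]
      simp only [ContinuousLinearMap.comp_apply, _root_.smul_apply, map_smul,
        ContinuousLinearMap.id_apply, smul_eq_mul]
      ring
    simp only [h1]
    rw [integral_const_mul, Measure.integral_comp_smul volume (gradSq b), Complex.finrank_real_complex,
      abs_of_nonneg (by positivity), smul_eq_mul, ← mul_assoc, mul_inv_cancel₀ (by positivity),
      one_mul]

lemma seq_zero {a : ℕ → ℝ} {A C : ℝ} (hC : 0 < C) (h0 : ∀ k, 0 ≤ a k) (hm : Monotone a)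
    (h1 : ∀ k, ∀ M : ℝ, 0 < M → M * a k ≤ A + M ^ 2 * C * a k)
    (h2 : ∀ k, ∀ M : ℝ, 0 < M → M * a (k + 1) ≤ A + M ^ 2 * C * (a (k + 2) - a k)) (k : ℕ) :
    a k = 0 := by
  have hb : BddAbove (range a) := by
    refine ⟨4 * C * A, ?_⟩
    rintro _ ⟨k, rfl⟩
    have := h1 k (1 / (2 * C)) (by positivity)
    have e : (1 / (2 * C)) ^ 2 * C * a k = 1 / (2 * C) * a k / 2 := by field_simp
    rw [e] at this
    have h3 : 1 / (2 * C) * a k ≤ 2 * A := by linarith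
    rw [one_div, inv_mul_le_iff₀ (by positivity)] at h3
    linarith
  have ht := tendsto_atTop_ciSup hm hb
  have h3 : ∀ M : ℝ, 0 < M → M * (⨆ i, a i) ≤ A := by
    intro M hM
    have t1 : Tendsto (fun k => M * a (k + 1)) atTop (𝓝 (M * ⨆ i, a i)) :=
      ((tendsto_add_atTop_iff_nat 1).2 ht).const_mul M
    have t2 : Tendsto (fun k => A + M ^ 2 * C * (a (k + 2) - a k)) atTop
        (𝓝 (A + M ^ 2 * C * ((⨆ i, a i) - ⨆ i, a i))) :=
      ((((tendsto_add_atTop_iff_nat 2).2 ht).sub ht).const_mul _).const_add A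
    simpa using le_of_tendsto_of_tendsto' t1 t2 fun k => h2 k M hM
  have h4 : a k ≤ ⨆ i, a i := le_ciSup hb k
  by_contra hne
  have h5 : 0 < ⨆ i, a i := (lt_of_le_of_ne (h0 k) (Ne.symm hne)).trans_le h4
  have h6 := h3 ((|A| + 1) / ⨆ i, a i) (by positivity)
  rw [div_mul_cancel₀ _ h5.ne'] at h6
  linarith [le_abs_self A]

theorem core {P : ℂ × ℂ → ℂ} {D : ℕ} (hP : Fib P D) {O : Set ℂ} (hO : IsOpen O)
    {E1 E2 : ℂ × ℂ → ℝ} {C : ℝ} (hC : 0 < C)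
    (h1 : ∀ ζ, P ζ ∈ O → ContDiffAt ℝ 1 E1 ζ) (h2 : ∀ ζ, P ζ ∈ O → ContDiffAt ℝ 1 E2 ζ)
    (hin : ∀ ζ, P ζ ∈ O → E1 ζ ^ 2 + E2 ζ ^ 2
      ≤ C * (fderiv ℝ E1 ζ (vX P ζ) - fderiv ℝ E2 ζ (I • vX P ζ)))
    (ζ0 : ℂ × ℂ) (hζ0 : P ζ0 ∈ O) :
    fderiv ℝ E1 ζ0 (vX P ζ0) - fderiv ℝ E2 ζ0 (I • vX P ζ0) = 0 := by
  obtain ⟨η, hη, hsub⟩ := nhds_basis_closedBall.mem_iff.1 (hO.mem_nhds hζ0)
  let ψ : ContDiffBump (P ζ0) := ⟨η / 2, η, half_pos hη, half_lt_self hη⟩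
  have hψ : ContDiff ℝ 1 ψ := ψ.contDiff
  have hψO : tsupport ψ ⊆ O := by rw [ψ.tsupport_eq]; exact hsub
  obtain ⟨g1, d1e⟩ := glob hP.diff hψ hψO h1
  obtain ⟨g2, d2e⟩ := glob hP.diff hψ hψO h2
  obtain ⟨χ, N, hχ, hχ01, hχ1, hχ0, hN⟩ := exists_cutoff
  set F1 : ℂ × ℂ → ℝ := fun ζ => ψ (P ζ) * E1 ζ with hF1
  set F2 : ℂ × ℂ → ℝ := fun ζ => ψ (P ζ) * E2 ζ with hF2
  set G : ℂ × ℂ → ℝ := fun ζ => fderiv ℝ F1 ζ (vX P ζ) - fderiv ℝ F2 ζ (I • vX P ζ) with hG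
  have hXc := (differentiable_vX hP.diff).continuous
  have hPc := hP.diff.continuous
  have hP2 := (differentiable_d2 hP.diff).continuous
  have hψc := hψ.continuous
  have g1c := g1.continuous
  have g2c := g2.continuous
  have hGc : Continuous G := by
    have := g1.continuous_fderiv one_ne_zero
    have := g2.continuous_fderiv one_ne_zero
    simp only [hG]
    fun_prop
  have hGe : ∀ ζ, G ζ = ψ (P ζ) * (fderiv ℝ E1 ζ (vX P ζ) - fderiv ℝ E2 ζ (I • vX P ζ)) := by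
    intro ζ
    simp only [hG]
    rw [d1e ζ _ (by simpa using fderiv_vX P ζ 1), d2e ζ _ (fderiv_vX P ζ I)]
    ring
  have hGin : ∀ ζ, ψ (P ζ) * (E1 ζ ^ 2 + E2 ζ ^ 2) ≤ C * G ζ := by
    intro ζ
    rw [hGe]
    by_cases h : ψ (P ζ) = 0
    · simp [h]
    · have := mul_le_mul_of_nonneg_left (hin ζ (hψO (subset_tsupport _ h))) (ψ.nonneg (x := P ζ))
      linarith
  have hG0 : ∀ ζ, 0 ≤ G ζ := fun ζ => by
    have := (mul_nonneg (ψ.nonneg (x := P ζ)) (by positivity)).trans (hGin ζ)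
    exact (mul_nonneg_iff_of_pos_left hC).1 this
  have hcs : ∀ (R : ℝ) (Φ : ℂ × ℂ → ℝ), (∀ ζ, R < ‖ζ.1‖ → Φ ζ = 0) →
      (∀ ζ, ψ (P ζ) = 0 → Φ ζ = 0) → HasCompactSupport Φ := by
    intro R Φ k1 k2
    obtain ⟨R', hR'⟩ := hP.proper R (‖P ζ0‖ + η)
    refine HasCompactSupport.intro (isCompact_closedBall (0 : ℂ × ℂ) (max R R')) fun ζ hζ => ?_
    by_contra hne
    have k3 : ‖ζ.1‖ ≤ R := not_lt.1 fun h => hne (k1 ζ h)
    have k4 : dist (P ζ) (P ζ0) < η := not_le.1 fun h => hne (k2 ζ (ψ.zero_of_le_dist h))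
    have k5 : ‖P ζ‖ ≤ ‖P ζ0‖ + η := by
      rw [dist_eq_norm] at k4
      linarith [norm_le_norm_add_norm_sub' (P ζ) (P ζ0)]
    apply hζ
    rw [mem_closedBall_zero_iff, Prod.norm_def]
    exact max_le_max k3 (hR' ζ k3 k5)
  have hgr : ∀ k a, gradSq (χ k) a ≠ 0 → 2 ^ k ≤ ‖a‖ ∧ ‖a‖ ≤ 2 ^ (k + 1) := by
    intro k a h
    constructor
    · by_contra hlt
      have : χ k =ᶠ[𝓝 a] fun _ => 1 := by
        filter_upwards [(isOpen_lt continuous_norm continuous_const).mem_nhds (not_le.1 hlt)]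
          with x hx using hχ1 k x (le_of_lt hx)
      apply h
      simp [gradSq, this.fderiv_eq]
    · by_contra hlt
      have : χ k =ᶠ[𝓝 a] fun _ => 0 := by
        filter_upwards [(isOpen_lt continuous_const continuous_norm).mem_nhds (not_le.1 hlt)]
          with x hx using hχ0 k x (le_of_lt hx)
      apply h
      simp [gradSq, this.fderiv_eq]
  have hgc : ∀ k, Continuous (gradSq (χ k)) := by
    intro k
    have := (hχ k).continuous_fderiv one_ne_zero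
    unfold gradSq
    fun_prop
  have hχc : ∀ k, Continuous (χ k) := fun k => (hχ k).continuous
  have ia : ∀ k, Integrable fun ζ : ℂ × ℂ => χ k ζ.1 ^ 2 * G ζ := by
    intro k
    have := hχc k
    refine Continuous.integrable_of_hasCompactSupport (by fun_prop)
      (hcs (2 ^ (k + 1)) _ (fun ζ h => ?_) fun ζ h => ?_)
    · simp [hχ0 k _ h.le]
    · simp [hGe, h]
  have ib : ∀ k, Integrable fun ζ : ℂ × ℂ => ψ (P ζ) * (gradSq (χ k) ζ.1 * ‖d2 P ζ‖ ^ 2) := by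
    intro k
    have := hgc k
    refine Continuous.integrable_of_hasCompactSupport (by fun_prop)
      (hcs (2 ^ (k + 1)) _ (fun ζ h => ?_) fun ζ h => ?_)
    · have : gradSq (χ k) ζ.1 = 0 := by
        by_contra hne
        exact absurd (hgr k _ hne).2 (not_le.2 h)
      simp [this]
    · simp [h]
  have harea : ∀ k, ∫ ζ : ℂ × ℂ, ψ (P ζ) * (gradSq (χ k) ζ.1 * ‖d2 P ζ‖ ^ 2)
      ≤ D * (∫ p, ψ p) * N := by
    intro k
    rw [← hN k]
    refine area_fib hP hψc (fun p => ψ.nonneg) ψ.integrable (hgc k)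
      (fun a => by unfold gradSq; positivity) ?_
    refine (hgc k).integrable_of_hasCompactSupport
      (HasCompactSupport.intro (isCompact_closedBall (0 : ℂ) (2 ^ (k + 1))) fun a ha => ?_)
    by_contra hne
    exact ha (by simpa using (hgr k a hne).2)
  have key : ∀ (k : ℕ) (M : ℝ) (β : ℂ → ℝ), 0 < M → (∀ a, 0 ≤ β a) →
      (∀ a, gradSq (χ k) a ≠ 0 → χ k a ^ 2 ≤ β a) → Integrable (fun ζ : ℂ × ℂ => β ζ.1 * G ζ) →
      M * ∫ ζ : ℂ × ℂ, χ k ζ.1 ^ 2 * G ζ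
        ≤ D * (∫ p, ψ p) * N + M ^ 2 * C * ∫ ζ : ℂ × ℂ, β ζ.1 * G ζ := by
    intro k M β hM hβ0 hβ iβ
    have hq : ContDiff ℝ 1 fun ζ : ℂ × ℂ => χ k ζ.1 ^ 2 := ((hχ k).comp contDiff_fst).pow 2
    have hder : ∀ {F : ℂ × ℂ → ℝ}, ContDiff ℝ 1 F → ∀ ζ v : ℂ × ℂ,
        fderiv ℝ (fun ζ : ℂ × ℂ => χ k ζ.1 ^ 2 * F ζ) ζ v
        = χ k ζ.1 ^ 2 * fderiv ℝ F ζ v + 2 * χ k ζ.1 * fderiv ℝ (χ k) ζ.1 v.1 * F ζ := by
      intro F hF ζ v
      have k1 : HasFDerivAt (fun ζ : ℂ × ℂ => χ k ζ.1)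
          ((fderiv ℝ (χ k) ζ.1).comp (ContinuousLinearMap.fst ℝ ℂ ℂ)) ζ :=
        ((hχ k).differentiable one_ne_zero ζ.1).hasFDerivAt.comp ζ hasFDerivAt_fst
      have k2 := ((k1.pow 2).mul (hF.differentiable one_ne_zero ζ).hasFDerivAt).fderiv
      rw [show (fun ζ : ℂ × ℂ => χ k ζ.1 ^ 2 * F ζ) = (fun ζ : ℂ × ℂ => χ k ζ.1 ^ 2) * F from rfl,
        k2]
      simp
      ring
    have hs : ∀ {E : ℂ × ℂ → ℝ},
        HasCompactSupport fun ζ : ℂ × ℂ => χ k ζ.1 ^ 2 * (ψ (P ζ) * E ζ) := by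
      intro E
      refine hcs (2 ^ (k + 1)) _ (fun ζ h => ?_) fun ζ h => ?_
      · simp [hχ0 k _ h.le]
      · simp [h]
    have hi : ∀ {Φ : ℂ × ℂ → ℝ}, ContDiff ℝ 1 Φ → HasCompactSupport Φ → ∀ l : ℂ,
        Integrable fun ζ => fderiv ℝ Φ ζ (l • vX P ζ) := by
      intro Φ k1 k2 l
      have := k1.continuous_fderiv one_ne_zero
      refine Continuous.integrable_of_hasCompactSupport (by fun_prop) ?_
      refine (k2.fderiv ℝ).mono fun ζ hζ h0 => hζ ?_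
      simp [h0]
    have z1 := div_free hP.diff (hq.mul g1) hs 1
    have z2 := div_free hP.diff (hq.mul g2) hs I
    have i1 := hi (hq.mul g1) hs 1
    have i2 := hi (hq.mul g2) hs I
    have pw : ∀ ζ : ℂ × ℂ, M * (χ k ζ.1 ^ 2 * G ζ)
        ≤ (ψ (P ζ) * (gradSq (χ k) ζ.1 * ‖d2 P ζ‖ ^ 2) + M ^ 2 * C * (β ζ.1 * G ζ))
          + M * (fderiv ℝ (fun ζ : ℂ × ℂ => χ k ζ.1 ^ 2 * F1 ζ) ζ ((1 : ℂ) • vX P ζ)
            - fderiv ℝ (fun ζ : ℂ × ℂ => χ k ζ.1 ^ 2 * F2 ζ) ζ (I • vX P ζ)) := by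
      intro ζ
      rw [hder g1, hder g2, one_smul, ← gradSq_mul]
      have e1 : (vX P ζ).1 = d2 P ζ := rfl
      have e2 : (I • vX P ζ).1 = I * d2 P ζ := rfl
      have e3 : G ζ = fderiv ℝ F1 ζ (vX P ζ) - fderiv ℝ F2 ζ (I • vX P ζ) := rfl
      have e4 : F1 ζ = ψ (P ζ) * E1 ζ := rfl
      have e5 : F2 ζ = ψ (P ζ) * E2 ζ := rfl
      have e6 := gradSq_mul (χ k) ζ.1 (d2 P ζ)
      rw [e1, e2, e4, e5]
      set u := fderiv ℝ (χ k) ζ.1 (d2 P ζ)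
      set w := fderiv ℝ (χ k) ζ.1 (I * d2 P ζ)
      have p0 : 0 ≤ ψ (P ζ) := ψ.nonneg
      have p1 := hG0 ζ
      have p2 := hGin ζ
      have p3 : 0 ≤ M ^ 2 * C * (β ζ.1 * G ζ) := mul_nonneg (by positivity) (mul_nonneg (hβ0 _) p1)
      by_cases hn : gradSq (χ k) ζ.1 = 0
      · rw [hn, zero_mul] at e6
        have hu : u = 0 := by nlinarith [sq_nonneg u, sq_nonneg w]
        have hw : w = 0 := by nlinarith [sq_nonneg u, sq_nonneg w]
        rw [hu, hw]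
        have : M * (χ k ζ.1 ^ 2 * G ζ) = M * (χ k ζ.1 ^ 2 * fderiv ℝ F1 ζ (vX P ζ)
          - χ k ζ.1 ^ 2 * fderiv ℝ F2 ζ (I • vX P ζ)) := by rw [e3]; ring
        linarith
      · have p4 := hβ _ hn
        have p5 : M ^ 2 * χ k ζ.1 ^ 2 * (ψ (P ζ) * (E1 ζ ^ 2 + E2 ζ ^ 2))
            ≤ M ^ 2 * C * (β ζ.1 * G ζ) := by
          calc M ^ 2 * χ k ζ.1 ^ 2 * (ψ (P ζ) * (E1 ζ ^ 2 + E2 ζ ^ 2))
              ≤ M ^ 2 * β ζ.1 * (C * G ζ) :=
                mul_le_mul (mul_le_mul_of_nonneg_left p4 (by positivity)) p2 (by positivity)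
                  (mul_nonneg (by positivity) (hβ0 _))
            _ = _ := by ring
        have p6 : 0 ≤ ψ (P ζ) * ((u + M * χ k ζ.1 * E1 ζ) ^ 2 + (w - M * χ k ζ.1 * E2 ζ) ^ 2) := by
          positivity
        have : M * (χ k ζ.1 ^ 2 * G ζ) = M * (χ k ζ.1 ^ 2 * fderiv ℝ F1 ζ (vX P ζ)
          - χ k ζ.1 ^ 2 * fderiv ℝ F2 ζ (I • vX P ζ)) := by rw [e3]; ring
        linarith
    have j1 : Integrable fun ζ : ℂ × ℂ => ψ (P ζ) * (gradSq (χ k) ζ.1 * ‖d2 P ζ‖ ^ 2)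
        + M ^ 2 * C * (β ζ.1 * G ζ) := (ib k).add (iβ.const_mul (M ^ 2 * C))
    have j2 : Integrable fun ζ : ℂ × ℂ =>
        M * (fderiv ℝ (fun ζ : ℂ × ℂ => χ k ζ.1 ^ 2 * F1 ζ) ζ ((1 : ℂ) • vX P ζ)
          - fderiv ℝ (fun ζ : ℂ × ℂ => χ k ζ.1 ^ 2 * F2 ζ) ζ (I • vX P ζ)) :=
      (i1.sub i2).const_mul M
    have hle := integral_mono ((ia k).const_mul M) (j1.add j2) pw
    simp only [Pi.add_apply] at hle
    rw [integral_add j1 j2,
      integral_add (ib k) (iβ.const_mul (M ^ 2 * C)), integral_const_mul, integral_const_mul,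
      integral_const_mul, integral_sub i1 i2, z1, z2] at hle
    linarith [harea k]
  have hmono : ∀ k j a, k < j → χ k a ^ 2 ≤ χ j a ^ 2 := by
    intro k j a hkj
    by_cases h : ‖a‖ ≤ 2 ^ j
    · rw [hχ1 j a h]
      exact pow_le_pow_left₀ (hχ01 k a).1 (hχ01 k a).2 2
    · rw [hχ0 k a ((pow_le_pow_right₀ one_le_two hkj).trans (not_le.1 h).le)]
      simp only [ne_eq, OfNat.ofNat_ne_zero, not_false_eq_true, zero_pow]
      positivity
  have hz := seq_zero (a := fun k => ∫ ζ : ℂ × ℂ, χ k ζ.1 ^ 2 * G ζ) (A := D * (∫ p, ψ p) * N) hC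
    (fun k => integral_nonneg fun ζ => mul_nonneg (by positivity) (hG0 ζ))
    (monotone_nat_of_le_succ fun k => integral_mono (ia k) (ia (k + 1)) fun ζ =>
      mul_le_mul_of_nonneg_right (hmono k (k + 1) _ (Nat.lt_succ_self k)) (hG0 ζ))
    (fun k M hM => key k M (fun a => χ k a ^ 2) hM (fun a => by positivity) (fun a _ => le_rfl)
      (ia k))
    (fun k M hM => by
      have := key (k + 1) M (fun a => χ (k + 2) a ^ 2 - χ k a ^ 2) hM
        (fun a => sub_nonneg.2 (hmono k (k + 2) a (by omega)))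
        (fun a ha => by
          rw [hχ1 (k + 2) a (hgr _ a ha).2, hχ0 k a (hgr _ a ha).1]
          simpa using pow_le_one₀ (n := 2) (hχ01 (k + 1) a).1 (hχ01 (k + 1) a).2)
        (by simp only [sub_mul]; exact (ia (k + 2)).sub (ia k))
      simp only [sub_mul] at this
      rwa [integral_sub (ia (k + 2)) (ia k)] at this)
  obtain ⟨k, hk⟩ := pow_unbounded_of_one_lt ‖ζ0.1‖ (one_lt_two (α := ℝ))
  have h3 := (integral_eq_zero_iff_of_nonneg
    (fun ζ => mul_nonneg (by positivity) (hG0 ζ)) (ia k)).1 (hz k)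
  have h4 := (Continuous.ae_eq_iff_eq volume
    ((((hχc k).comp continuous_fst).pow 2).mul hGc) continuous_zero).1 h3
  have h5 : χ k ζ0.1 ^ 2 * G ζ0 = 0 := congrFun h4 ζ0
  simp only [hχ1 k _ hk.le, hGe] at h5
  rw [ψ.one_of_mem_closedBall (mem_closedBall_self ψ.rIn_pos.le)] at h5
  simpa using h5

end Pool.Agent.MP_161a40_an.H4
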