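import Pool.Agent.MP_161a40_an.H4.Core
import Pool.Agent.MP_161a40_an.H4.Cert

/-!
The certificate pulled back to the fibres of `P`: a holomorphic function `U` on fibres that avoid
a nested family of walls is constant along the fibres in the holes.
-/

set_option autoImplicit false

open Complex Metric Set MeasureTheory Filter
open scoped Real Topology

namespace Pool.Agent.MP_161a40_an.H4

/-- A branch of `log u / (2 i)` with real part in `(0, π]`. -/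
noncomputable def Th (u : ℂ) : ℂ := log (-u) / (2 * I) + π / 2

lemma exp_Th {u : ℂ} (hu : u ≠ 0) : exp (2 * I * Th u) = u := by
  have : 2 * I * Th u = log (-u) + π * I := by
    unfold Th
    field_simp
  rw [this, exp_add, exp_log (neg_ne_zero.2 hu), exp_pi_mul_I]
  ring

lemma div_two_I_re (z : ℂ) : (z / (2 * I)).re = z.im / 2 := by
  have : z / (2 * I) = -(I * z) / 2 := by
    field_simp
    simp
  rw [this]
  simp

lemma Th_re (u : ℂ) : 0 < (Th u).re ∧ (Th u).re ≤ π := by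
  have h : (Th u).re = arg (-u) / 2 + π / 2 := by
    unfold Th
    rw [add_re, div_two_I_re, log_im]
    simp
  rw [h]
  constructor <;> linarith [neg_pi_lt_arg (-u), arg_le_pi (-u)]

lemma exp_two_I_pi (θ : ℂ) : exp (2 * I * (θ + π)) = exp (2 * I * θ) := by
  rw [show 2 * I * (θ + π) = 2 * I * θ + 2 * π * I by ring, exp_add, exp_two_pi_mul_I, mul_one]

lemma exists_shift {μ ν : ℂ} (h : exp (2 * I * μ) = exp (2 * I * ν)) :
    ∃ n : ℤ, μ = ν + n * π := by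
  obtain ⟨n, hn⟩ := exp_eq_exp_iff_exists_int.1 h
  refine ⟨n, mul_left_cancel₀ (mul_ne_zero two_ne_zero I_ne_zero) ?_⟩
  rw [hn]
  ring

/-- Sum over four translates. -/
noncomputable def s4 (a : ℂ → ℝ) (θ : ℂ) : ℝ :=
  a θ + a (θ + π) + a (θ + π + π) + a (θ + π + π + π)

lemma s4_shift {a : ℂ → ℝ} (ha : ∀ θ : ℂ, θ.re < 1 ∨ 4 * π - 1 < θ.re → a θ = 0) {μ ν : ℂ}
    (h : exp (2 * I * μ) = exp (2 * I * ν)) (h1 : -1 < μ.re) (h2 : μ.re < π + 1)
    (h3 : 0 < ν.re) (h4 : ν.re ≤ π) : s4 a ν = s4 a μ := by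
  obtain ⟨n, rfl⟩ := exists_shift h
  have hπ := Real.pi_gt_three
  simp only [add_re, mul_re, intCast_re, ofReal_re, intCast_im, ofReal_im, mul_zero,
    sub_zero] at h1 h2
  have k1 : (-2 : ℝ) < n := by nlinarith
  have k2 : (n : ℝ) < 2 := by nlinarith
  have k3 : -2 < n := by exact_mod_cast k1
  have k4 : n < 2 := by exact_mod_cast k2
  unfold s4
  interval_cases n
  · have e : ν + ((-1 : ℤ) : ℂ) * π + π = ν := by push_cast; ring
    push_cast at h1 h2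
    rw [e, ha (ν + π + π + π) (Or.inr (by simp; linarith)),
      ha (ν + ((-1 : ℤ) : ℂ) * π) (Or.inl (by simp; linarith))]
    ring
  · simp
  · have e : ν + ((1 : ℤ) : ℂ) * π = ν + π := by push_cast; ring
    push_cast at h1 h2
    rw [e, ha ν (Or.inl (by linarith)), ha (ν + π + π + π + π) (Or.inr (by simp; linarith))]
    ring

open Classical in
/-- Indicator of the region between two consecutive walls. -/
noncomputable def gg (lev : ℂ → ℝ) (θ : ℂ) (l : ℝ) : ℝ :=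
  if lev θ < l ∧ l < lev (θ + π + π) then 1 else 0

lemma gg_cases (lev : ℂ → ℝ) (θ : ℂ) (l : ℝ) : gg lev θ l = 0 ∨ gg lev θ l = 1 := by
  unfold gg
  split_ifs <;> simp

lemma ev_lt_iff {X : Type*} [TopologicalSpace X] {f g : X → ℝ} {x : X} (hf : ContinuousAt f x)
    (hg : ContinuousAt g x) (h : f x ≠ g x) : ∀ᶠ y in 𝓝 x, (f y < g y ↔ f x < g x) := by
  rcases lt_or_gt_of_ne h with h | h
  · filter_upwards [hf.eventually_lt hg h] with y hy using iff_of_true hy h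
  · filter_upwards [hg.eventually_lt hf h] with y hy using iff_of_false hy.not_gt h.not_gt

lemma isClosed_reg : IsClosed {θ | Reg θ} := by
  have := contDiff_QQ.continuous
  exact (isClosed_le (this.sub continuous_const).abs continuous_const).inter
    ((isClosed_le continuous_const continuous_re).inter (isClosed_le continuous_re continuous_const))

lemma gg_local {lev ω : ℂ → ℝ} (hlev : Continuous lev) (hω : ∀ θ, ¬ Reg θ → ω θ = 0)
    {l : ℂ × ℂ → ℝ} (hl : Continuous l) {ν : ℂ × ℂ → ℂ} {ζ0 : ℂ × ℂ} (hν : ContinuousAt ν ζ0)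
    (hw : Reg (ν ζ0) → l ζ0 ≠ lev (ν ζ0) ∧ l ζ0 ≠ lev (ν ζ0 + π + π)) :
    ∀ᶠ ζ in 𝓝 ζ0, gg lev (ν ζ) (l ζ) * ω (ν ζ) = gg lev (ν ζ0) (l ζ0) * ω (ν ζ) := by
  by_cases h : Reg (ν ζ0)
  · have h1 := ev_lt_iff (f := fun ζ => lev (ν ζ)) (hlev.continuousAt.comp hν) hl.continuousAt
      (hw h).1.symm
    have h2 := ev_lt_iff (g := fun ζ => lev (ν ζ + π + π)) hl.continuousAt
      (hlev.continuousAt.comp ((hν.add continuousAt_const).add continuousAt_const)) (hw h).2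
    filter_upwards [h1, h2] with ζ k1 k2
    unfold gg
    simp only [k1, k2]
  · filter_upwards [hν.eventually (isClosed_reg.isOpen_compl.mem_nhds h)] with ζ hζ
    rw [hω _ hζ, mul_zero, mul_zero]

/-- Weighted sum over four translates. -/
noncomputable def w4 (g0 g1 g2 g3 : ℝ) (ω : ℂ → ℝ) (θ : ℂ) : ℝ :=
  g0 * ω θ + g1 * ω (θ + π) + g2 * ω (θ + π + π) + g3 * ω (θ + π + π + π)

lemma contDiff_w4 (g0 g1 g2 g3 : ℝ) {ω : ℂ → ℝ} (hω : ContDiff ℝ 1 ω) :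
    ContDiff ℝ 1 (w4 g0 g1 g2 g3 ω) := by
  unfold w4
  fun_prop

lemma fderiv_w4 (g0 g1 g2 g3 : ℝ) {ω : ℂ → ℝ} (hω : ContDiff ℝ 1 ω) (θ v : ℂ) :
    fderiv ℝ (w4 g0 g1 g2 g3 ω) θ v = w4 g0 g1 g2 g3 (fun θ => fderiv ℝ ω θ v) θ := by
  have hd := fun x => (hω.differentiable one_ne_zero x).hasFDerivAt
  have h1 := (hd (θ + π)).comp θ ((hasFDerivAt_id θ).add_const (π : ℂ))
  have h2 := (hd (θ + π + π)).comp θ (((hasFDerivAt_id θ).add_const (π : ℂ)).add_const (π : ℂ))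
  have h3 := (hd (θ + π + π + π)).comp θ
    ((((hasFDerivAt_id θ).add_const (π : ℂ)).add_const (π : ℂ)).add_const (π : ℂ))
  have h : HasFDerivAt (w4 g0 g1 g2 g3 ω) _ θ :=
    ((((hd θ).const_mul g0).add (h1.const_mul g1)).add (h2.const_mul g2)).add (h3.const_mul g3)
  rw [h.fderiv]
  simp [w4]

lemma pull {Ω1 Ω2 : ℂ → ℝ} (h1 : ContDiff ℝ 1 Ω1) (h2 : ContDiff ℝ 1 Ω2) {μ m : ℂ × ℂ → ℂ}
    {ζ0 X : ℂ × ℂ} (hμ : DifferentiableAt ℂ μ ζ0) (hm : DifferentiableAt ℂ m ζ0)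
    (hX : fderiv ℂ μ ζ0 X = m ζ0) :
    fderiv ℝ (fun ζ => Ω1 (μ ζ) * -(m ζ).im + Ω2 (μ ζ) * (m ζ).re) ζ0 X
      - fderiv ℝ (fun ζ => Ω1 (μ ζ) * (m ζ).re + Ω2 (μ ζ) * (m ζ).im) ζ0 (I • X)
      = ‖m ζ0‖ ^ 2 * (fderiv ℝ Ω2 (μ ζ0) 1 - fderiv ℝ Ω1 (μ ζ0) I) := by
  have dμ := hμ.hasFDerivAt.restrictScalars ℝ
  have dm := hm.hasFDerivAt.restrictScalars ℝ
  have d1 := (h1.differentiable one_ne_zero (μ ζ0)).hasFDerivAt.comp ζ0 dμ
  have d2 := (h2.differentiable one_ne_zero (μ ζ0)).hasFDerivAt.comp ζ0 dμ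
  have dr := reCLM.hasFDerivAt.comp ζ0 dm
  have di := imCLM.hasFDerivAt.comp ζ0 dm
  have e1 : HasFDerivAt (fun ζ => Ω1 (μ ζ) * -(m ζ).im + Ω2 (μ ζ) * (m ζ).re) _ ζ0 :=
    (d1.mul di.neg).add (d2.mul dr)
  have e2 : HasFDerivAt (fun ζ => Ω1 (μ ζ) * (m ζ).re + Ω2 (μ ζ) * (m ζ).im) _ ζ0 :=
    (d1.mul dr).add (d2.mul di)
  rw [e1.fderiv, e2.fderiv]
  simp only [_root_.add_apply, _root_.smul_apply, ContinuousLinearMap.comp_apply,
    ContinuousLinearMap.coe_restrictScalars', map_smul, hX, smul_eq_mul, Function.comp_apply,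
    Pi.neg_apply, _root_.neg_apply, reCLM_apply, imCLM_apply]
  rw [real_lin (fderiv ℝ Ω1 (μ ζ0)) (m ζ0), real_lin (fderiv ℝ Ω2 (μ ζ0)) (m ζ0),
    real_lin (fderiv ℝ Ω1 (μ ζ0)) (I * m ζ0), real_lin (fderiv ℝ Ω2 (μ ζ0)) (I * m ζ0),
    Complex.sq_norm, Complex.normSq_apply]
  simp only [mul_re, mul_im, I_re, I_im]
  ring

theorem walls {P : ℂ × ℂ → ℂ} {D : ℕ} (hP : Fib P D) {O : Set ℂ} (hO : IsOpen O)
    {U : ℂ × ℂ → ℂ} (hU : Differentiable ℂ U) {l : ℂ × ℂ → ℝ} (hl : Continuous l)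
    {lev : ℂ → ℝ} (hlev : Continuous lev)
    (hW : ∀ ζ, P ζ ∈ O → ∀ θ, Strip θ → 1 ≤ θ.re → θ.re ≤ 6 * π - 1 →
      exp (2 * I * θ) = U ζ → l ζ ≠ lev θ)
    (hN : ∀ θ : ℂ, 0 < θ.re → θ.re ≤ π → Strip θ → Strip (θ + π) → 0 ≤ qq θ →
      lev θ ≤ lev (θ + π) ∧ lev (θ + π) ≤ lev (θ + π + π + π) ∧
      lev (θ + π + π + π) ≤ lev (θ + π + π + π + π + π) ∧
      lev (θ + π + π + π + π + π) ≤ lev (θ + π + π))
    (ζ : ℂ × ℂ) (hζ : P ζ ∈ O) (θ : ℂ) (hQ : QQ θ = 169 / 144) (hθ1 : 1 < θ.re)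
    (hθ2 : θ.re < 4 * π - 1) (he : exp (2 * I * θ) = U ζ) (hl1 : lev θ < l ζ)
    (hl2 : l ζ < lev (θ + π + π)) : fderiv ℂ U ζ (vX P ζ) = 0 := by
  obtain ⟨ω1, ω2, κS, κT, C, hC, c1, c2, hsupp, hcurl, hsq, hT, hpos⟩ := cert
  set m : ℂ × ℂ → ℂ := fun ζ => fderiv ℂ U ζ (vX P ζ) / (2 * I * U ζ) with hm
  set α : (ℂ → ℝ) → ℂ × ℂ → ℝ := fun ω ζ => s4 (fun θ => gg lev θ (l ζ) * ω θ) (Th (U ζ)) with hα
  set E1 : ℂ × ℂ → ℝ := fun ζ => α ω1 ζ * -(m ζ).im + α ω2 ζ * (m ζ).re with hE1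
  set E2 : ℂ × ℂ → ℝ := fun ζ => α ω1 ζ * (m ζ).re + α ω2 ζ * (m ζ).im with hE2
  have hnum : Differentiable ℂ fun ζ => fderiv ℂ U ζ (vX P ζ) := by
    simp only [fderiv_apply_eq, vX]
    exact ((differentiable_d2 hP.diff).mul (differentiable_d1 hU)).add
      ((differentiable_d1 hP.diff).neg.mul (differentiable_d2 hU))
  have hκS : ∀ θ, 0 ≤ κS θ := fun θ =>
    (mul_nonneg_iff_of_pos_left hC).1 ((by positivity : 0 ≤ ω1 θ ^ 2 + ω2 θ ^ 2).trans (hsq θ))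
  have zero : ∀ ζ0, U ζ0 = 0 → E1 =ᶠ[𝓝 ζ0] (fun _ => 0) ∧ E2 =ᶠ[𝓝 ζ0] fun _ => 0 := by
    intro ζ0 h0
    have h1 : ∀ᶠ ζ in 𝓝 ζ0, ‖U ζ‖ < 1 / 4 :=
      hU.continuous.norm.continuousAt.eventually_lt continuousAt_const (by rw [h0]; simp)
    have h2 : ∀ᶠ ζ in 𝓝 ζ0, E1 ζ = 0 ∧ E2 ζ = 0 := by
      filter_upwards [h1] with ζ hζ
      by_cases hz : U ζ = 0
      · simp [hE1, hE2, hm, hz]
      · have k : ∀ θ, exp (2 * I * θ) = U ζ → ω1 θ = 0 ∧ ω2 θ = 0 := by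
          intro θ hθ
          refine hsupp θ fun hr => ?_
          have k1 := hr.1.exp_ge
          have k2 : ‖U ζ‖ = Real.exp (-θ.im) * Real.exp (-θ.im) := by
            rw [← hθ, norm_exp, ← Real.exp_add]
            congr 1
            simp
            ring
          nlinarith
        have k0 := exp_Th hz
        have k1 := (exp_two_I_pi _).trans k0
        have k2 := (exp_two_I_pi _).trans k1
        have k3 := (exp_two_I_pi _).trans k2
        simp [hE1, hE2, hα, s4, k _ k0, k _ k1, k _ k2, k _ k3]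
    exact ⟨h2.mono fun ζ h => h.1, h2.mono fun ζ h => h.2⟩
  have nonzero : ∀ ζ0, P ζ0 ∈ O → U ζ0 ≠ 0 → ContDiffAt ℝ 1 E1 ζ0 ∧ ContDiffAt ℝ 1 E2 ζ0 ∧
      fderiv ℝ E1 ζ0 (vX P ζ0) - fderiv ℝ E2 ζ0 (I • vX P ζ0) = ‖m ζ0‖ ^ 2 *
        s4 (fun θ => gg lev θ (l ζ0) * (κS θ + κT θ)) (Th (U ζ0)) := by
    intro ζ0 hζ0 h0
    set μ : ℂ × ℂ → ℂ := fun ζ => Th (U ζ0) + log (U ζ / U ζ0) / (2 * I) with hμ
    have hμ0 : μ ζ0 = Th (U ζ0) := by simp [hμ, h0]
    have hsl : U ζ0 / U ζ0 ∈ slitPlane := by rw [div_self h0]; exact one_mem_slitPlane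
    have cU : ContDiffAt ℂ 1 U ζ0 := (contDiff_entire 1 hU).contDiffAt
    have cμ : ContDiffAt ℂ 1 μ ζ0 :=
      contDiffAt_const.add (((contDiffAt_log hsl).comp ζ0 (cU.div_const _)).div_const _)
    have cm : ContDiffAt ℂ 1 m ζ0 :=
      (contDiff_entire 1 hnum).contDiffAt.div (contDiffAt_const.mul cU)
        (mul_ne_zero (mul_ne_zero two_ne_zero I_ne_zero) h0)
    have hX : fderiv ℂ μ ζ0 (vX P ζ0) = m ζ0 := by
      have k : HasFDerivAt μ _ ζ0 :=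
        ((((hU ζ0).hasFDerivAt.mul_const (U ζ0)⁻¹).clog hsl).mul_const (2 * I)⁻¹).const_add _
      rw [k.fderiv]
      simp only [_root_.smul_apply, smul_eq_mul, hm]
      field_simp
    have hloc : ∀ {ω : ℂ → ℝ}, (∀ θ, ¬ Reg θ → ω θ = 0) → α ω =ᶠ[𝓝 ζ0] fun ζ =>
        w4 (gg lev (μ ζ0) (l ζ0)) (gg lev (μ ζ0 + π) (l ζ0)) (gg lev (μ ζ0 + π + π) (l ζ0))
          (gg lev (μ ζ0 + π + π + π) (l ζ0)) ω (μ ζ) := by
      intro ω hω
      have hw : ∀ θ, exp (2 * I * θ) = U ζ0 → Reg θ →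
          l ζ0 ≠ lev θ ∧ l ζ0 ≠ lev (θ + π + π) := by
        intro θ hθ hr
        have hπ := Real.pi_pos
        refine ⟨hW ζ0 hζ0 θ hr.1 hr.2.1 (by linarith [hr.2.2]) hθ, hW ζ0 hζ0 _ ?_ ?_ ?_ ?_⟩
        · unfold Strip
          rw [QQ_add_pi, QR_add_pi]
          exact hr.1
        · simp only [add_re, ofReal_re]; linarith [hr.2.1]
        · simp only [add_re, ofReal_re]; linarith [hr.2.2]
        · rw [exp_two_I_pi, exp_two_I_pi, hθ]
      have k0 : exp (2 * I * μ ζ0) = U ζ0 := hμ0 ▸ exp_Th h0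
      have k1 := (exp_two_I_pi _).trans k0
      have k2 := (exp_two_I_pi _).trans k1
      have k3 := (exp_two_I_pi _).trans k2
      have t0 := cμ.continuousAt
      have t1 : ContinuousAt (fun ζ => μ ζ + π) ζ0 := t0.add continuousAt_const
      have t2 : ContinuousAt (fun ζ => μ ζ + π + π) ζ0 := t1.add continuousAt_const
      have t3 : ContinuousAt (fun ζ => μ ζ + π + π + π) ζ0 := t2.add continuousAt_const
      have tr : ContinuousAt (fun ζ => (μ ζ).re) ζ0 := continuous_re.continuousAt.comp t0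
      have r1 : ∀ᶠ ζ in 𝓝 ζ0, -1 < (μ ζ).re :=
        continuousAt_const.eventually_lt tr (by rw [hμ0]; linarith [(Th_re (U ζ0)).1])
      have r2 : ∀ᶠ ζ in 𝓝 ζ0, (μ ζ).re < π + 1 :=
        tr.eventually_lt continuousAt_const (by rw [hμ0]; linarith [(Th_re (U ζ0)).2])
      filter_upwards [gg_local hlev hω hl t0 (hw _ k0), gg_local hlev hω hl t1 (hw _ k1),
        gg_local hlev hω hl t2 (hw _ k2), gg_local hlev hω hl t3 (hw _ k3), r1, r2,
        hU.continuous.continuousAt.eventually_ne h0] with ζ a0 a1 a2 a3 a4 a5 a6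
      have a7 : exp (2 * I * μ ζ) = exp (2 * I * Th (U ζ)) := by
        have : 2 * I * μ ζ = 2 * I * Th (U ζ0) + log (U ζ / U ζ0) := by
          simp only [hμ]
          field_simp
        rw [this, exp_add, exp_Th h0, exp_Th a6, exp_log (div_ne_zero a6 h0)]
        field_simp
      simp only [hα]
      rw [s4_shift (fun θ hθ => by
        rw [hω θ fun hr => by rcases hθ with h | h <;> linarith [hr.2.1, hr.2.2], mul_zero])
        a7 a4 a5 (Th_re _).1 (Th_re _).2]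
      simp only [s4, w4, a0, a1, a2, a3]
    have l1 := hloc fun θ h => (hsupp θ h).1
    have l2 := hloc fun θ h => (hsupp θ h).2
    set Ω1 := w4 (gg lev (μ ζ0) (l ζ0)) (gg lev (μ ζ0 + π) (l ζ0)) (gg lev (μ ζ0 + π + π) (l ζ0))
      (gg lev (μ ζ0 + π + π + π) (l ζ0)) ω1 with hΩ1
    set Ω2 := w4 (gg lev (μ ζ0) (l ζ0)) (gg lev (μ ζ0 + π) (l ζ0)) (gg lev (μ ζ0 + π + π) (l ζ0))
      (gg lev (μ ζ0 + π + π + π) (l ζ0)) ω2 with hΩ2
    have cΩ1 : ContDiff ℝ 1 Ω1 := contDiff_w4 _ _ _ _ c1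
    have cΩ2 : ContDiff ℝ 1 Ω2 := contDiff_w4 _ _ _ _ c2
    have e1 : E1 =ᶠ[𝓝 ζ0] fun ζ => Ω1 (μ ζ) * -(m ζ).im + Ω2 (μ ζ) * (m ζ).re := by
      filter_upwards [l1, l2] with ζ a1 a2
      simp only [hE1, a1, a2]
    have e2 : E2 =ᶠ[𝓝 ζ0] fun ζ => Ω1 (μ ζ) * (m ζ).re + Ω2 (μ ζ) * (m ζ).im := by
      filter_upwards [l1, l2] with ζ a1 a2
      simp only [hE2, a1, a2]
    have q1 := cΩ1.contDiffAt.comp ζ0 (cμ.restrict_scalars ℝ)
    have q2 := cΩ2.contDiffAt.comp ζ0 (cμ.restrict_scalars ℝ)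
    have q3 := reCLM.contDiff.contDiffAt.comp ζ0 (cm.restrict_scalars ℝ)
    have q4 := imCLM.contDiff.contDiffAt.comp ζ0 (cm.restrict_scalars ℝ)
    refine ⟨((q1.mul q4.neg).add (q2.mul q3)).congr_of_eventuallyEq e1,
      ((q1.mul q3).add (q2.mul q4)).congr_of_eventuallyEq e2, ?_⟩
    rw [e1.fderiv_eq, e2.fderiv_eq, pull cΩ1 cΩ2 (cμ.differentiableAt one_ne_zero)
      (cm.differentiableAt one_ne_zero) hX, hΩ1, hΩ2, fderiv_w4 _ _ _ _ c1, fderiv_w4 _ _ _ _ c2,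
      hμ0]
    simp only [s4, w4, ← hcurl]
    ring
  have hTs : ∀ (θ : ℂ) (x : ℝ), 0 < θ.re → θ.re ≤ π → 0 ≤ s4 (fun θ => gg lev θ x * κT θ) θ := by
    intro θ x h1 h2
    unfold s4
    rcases hT θ h1 h2 with ⟨a0, a1, a2, a3⟩ | ⟨a0, a1, a2, a3, a4, a5, a6⟩
    · simp [a0, a1, a2, a3]
    · obtain ⟨n1, n2, n3, n4⟩ := hN θ h1 h2 a0 a1 a2
      have : gg lev (θ + π) x + gg lev (θ + π + π + π) x ≤ gg lev θ x := by
        unfold gg
        split_ifs with b1 b2 b3 b4 b5 b6 b7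
        · linarith [b1.2, b2.1]
        · linarith [b1.2, b2.1]
        · norm_num
        · exact absurd ⟨by linarith [b1.1], by linarith [b1.2]⟩ b4
        · norm_num
        · exact absurd ⟨by linarith [b5.1], by linarith [b5.2]⟩ b6
        · norm_num
        · norm_num
      beta_reduce
      rw [a4, a5, a6]
      nlinarith
  have hone : ∀ (θ : ℂ) (x : ℝ), (gg lev θ x * ω1 θ) ^ 2 + (gg lev θ x * ω2 θ) ^ 2
      ≤ C * (gg lev θ x * κS θ) := by
    intro θ x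
    rcases gg_cases lev θ x with h | h
    · simp [h]
    · simpa [h] using hsq θ
  have hsplit : ∀ (θ : ℂ) (x : ℝ), s4 (fun θ => gg lev θ x * (κS θ + κT θ)) θ
      = s4 (fun θ => gg lev θ x * κS θ) θ + s4 (fun θ => gg lev θ x * κT θ) θ := by
    intro θ x
    simp only [s4]
    ring
  have hcore := core hP hO (E1 := E1) (E2 := E2) (C := 4 * C) (by positivity)
    (fun ζ hζ => by
      by_cases h : U ζ = 0
      · exact contDiffAt_const.congr_of_eventuallyEq (zero ζ h).1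
      · exact (nonzero ζ hζ h).1)
    (fun ζ hζ => by
      by_cases h : U ζ = 0
      · exact contDiffAt_const.congr_of_eventuallyEq (zero ζ h).2
      · exact (nonzero ζ hζ h).2.1)
    (fun ζ hζ => by
      by_cases h : U ζ = 0
      · rw [(zero ζ h).1.fderiv_eq, (zero ζ h).2.fderiv_eq, (zero ζ h).1.eq_of_nhds,
          (zero ζ h).2.eq_of_nhds]
        simp
      · rw [(nonzero ζ hζ h).2.2, hsplit]
        have a1 : E1 ζ ^ 2 + E2 ζ ^ 2 = ‖m ζ‖ ^ 2 * (α ω1 ζ ^ 2 + α ω2 ζ ^ 2) := by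
          simp only [hE1, hE2, Complex.sq_norm, Complex.normSq_apply]
          ring
        have a2 := hTs (Th (U ζ)) (l ζ) (Th_re _).1 (Th_re _).2
        have a3 : α ω1 ζ ^ 2 + α ω2 ζ ^ 2
            ≤ 4 * C * s4 (fun θ => gg lev θ (l ζ) * κS θ) (Th (U ζ)) := by
          have sq4 : ∀ a b c d : ℝ, (a + b + c + d) ^ 2 ≤ 4 * (a ^ 2 + b ^ 2 + c ^ 2 + d ^ 2) := by
            intro a b c d
            nlinarith [sq_nonneg (a - b), sq_nonneg (a - c), sq_nonneg (a - d), sq_nonneg (b - c),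
              sq_nonneg (b - d), sq_nonneg (c - d)]
          simp only [hα, s4]
          have b0 := hone (Th (U ζ)) (l ζ)
          have b1 := hone (Th (U ζ) + π) (l ζ)
          have b2 := hone (Th (U ζ) + π + π) (l ζ)
          have b3 := hone (Th (U ζ) + π + π + π) (l ζ)
          refine (add_le_add (sq4 _ _ _ _) (sq4 _ _ _ _)).trans ?_
          linarith
        rw [a1]
        have a4 : 0 ≤ ‖m ζ‖ ^ 2 := by positivity
        nlinarith [mul_le_mul_of_nonneg_left a3 a4, mul_nonneg (mul_nonneg hC.le a4) a2])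
    ζ hζ
  have hU0 : U ζ ≠ 0 := he ▸ exp_ne_zero _
  rw [(nonzero ζ hζ hU0).2.2, hsplit] at hcore
  have a2 := hTs (Th (U ζ)) (l ζ) (Th_re _).1 (Th_re _).2
  have a3 : 0 < s4 (fun θ => gg lev θ (l ζ) * κS θ) (Th (U ζ)) := by
    have b0 : ∀ θ, 0 ≤ gg lev θ (l ζ) * κS θ := fun θ => mul_nonneg (by
      rcases gg_cases lev θ (l ζ) with h | h <;> simp [h]) (hκS θ)
    have b1 : 0 < gg lev θ (l ζ) * κS θ := by
      unfold gg
      rw [if_pos ⟨hl1, hl2⟩, one_mul]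
      exact hpos θ hQ hθ1 hθ2
    obtain ⟨n, hn⟩ := exists_shift (he.trans (exp_Th hU0).symm)
    have hπ := Real.pi_gt_three
    have b2 := congrArg re hn
    simp only [add_re, mul_re, intCast_re, ofReal_re, intCast_im, ofReal_im, mul_zero,
      sub_zero] at b2
    obtain ⟨b3, b4⟩ := Th_re (U ζ)
    have k1 : (-1 : ℝ) < n := by nlinarith
    have k2 : (n : ℝ) < 4 := by nlinarith
    have k3 : -1 < n := by exact_mod_cast k1
    have k4 : n < 4 := by exact_mod_cast k2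
    have c0 := b0 (Th (U ζ))
    have c1 := b0 (Th (U ζ) + π)
    have c2 := b0 (Th (U ζ) + π + π)
    have c3 := b0 (Th (U ζ) + π + π + π)
    unfold s4
    beta_reduce
    interval_cases n
    · rw [show θ = Th (U ζ) by rw [hn]; push_cast; ring] at b1; linarith
    · rw [show θ = Th (U ζ) + π by rw [hn]; push_cast; ring] at b1; linarith
    · rw [show θ = Th (U ζ) + π + π by rw [hn]; push_cast; ring] at b1; linarith
    · rw [show θ = Th (U ζ) + π + π + π by rw [hn]; push_cast; ring] at b1; linarith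
  have a4 : m ζ = 0 := by
    have := (mul_eq_zero.1 hcore).resolve_right (by linarith)
    simpa using this
  simpa [hm, hU0] using a4

end Pool.Agent.MP_161a40_an.H4
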