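import Pool.Agent.MP_161a40_an.H4.Form

/-!
The functions of one variable that define the map `(z, w) ↦ (z A (z w), w B (z w))`.
-/

set_option autoImplicit false

open Complex Metric Set Filter
open scoped Real Topology

namespace Pool.Agent.MP_161a40_an.H4

/-- A very small positive number. -/
noncomputable def d0 : ℝ := Real.exp (-38000)

/-- A number slightly smaller than two. -/
noncomputable def bb : ℝ := 2 - d0 / 2

/-- A conformal map of the disc of radius `1 / 2` onto a long thin domain. -/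
noncomputable def sg (s : ℂ) : ℂ := -(1 / 2000) * log (1 - bb * s)

/-- The logarithmic variable for `13 / 12 * exp (i σ) + 5 / 12`. -/
noncomputable def th (σ : ℂ) : ℂ := σ - I * log (13 / 12) - I * log (1 + 5 / 13 * exp (-(I * σ)))

/-- The logarithmic variable as a function of `s`. -/
noncomputable def tt (s : ℂ) : ℂ := th (sg s)

/-- The level function. -/
noncomputable def mf (θ : ℂ) : ℂ := (θ - π / 2) * (2 - I * exp (I * θ))

/-- Squared radius of the wall. -/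
noncomputable def lev (θ : ℂ) : ℝ := Real.exp (2 * (mf θ - mf (tt 0)).re) / 2

/-- First multiplier. -/
noncomputable def AA (s : ℂ) : ℂ := exp (mf (tt s) - mf (tt 0))

/-- The value of the invariant function on the image. -/
noncomputable def UU (s : ℂ) : ℂ := exp (2 * I * tt s)

/-- Normalizing constant. -/
noncomputable def c0 : ℂ := deriv UU 0

/-- Second multiplier. -/
noncomputable def BB (s : ℂ) : ℂ := dslope UU 0 s / (c0 * AA s)

lemma d0_pos : 0 < d0 := Real.exp_pos _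

lemma d0_le : d0 ≤ 1 := Real.exp_le_one_iff.2 (by norm_num)

lemma bb_pos : 0 < bb := by unfold bb; linarith [d0_le]

lemma norm_bb_mul {s : ℂ} (hs : ‖s‖ < 1 / 2) : ‖(bb : ℂ) * s‖ < 1 - d0 / 4 := by
  rw [norm_mul, Complex.norm_real, Real.norm_of_nonneg bb_pos.le]
  have := mul_lt_mul_of_pos_left hs bb_pos
  unfold bb at this ⊢
  linarith

lemma re_pos {s : ℂ} (hs : ‖s‖ < 1 / 2) : d0 / 4 < (1 - (bb : ℂ) * s).re := by
  have := norm_bb_mul hs
  have h := re_le_norm ((bb : ℂ) * s)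
  rw [sub_re, one_re]
  linarith

lemma slit {s : ℂ} (hs : ‖s‖ < 1 / 2) : 1 - (bb : ℂ) * s ∈ slitPlane :=
  Or.inl ((by linarith [d0_pos] : (0 : ℝ) < d0 / 4).trans (re_pos hs))

lemma sg_re (s : ℂ) : (sg s).re = -(1 / 2000) * Real.log ‖1 - (bb : ℂ) * s‖ := by
  have : sg s = ((-(1 / 2000) : ℝ) : ℂ) * log (1 - bb * s) := by unfold sg; push_cast; ring
  rw [this, re_ofReal_mul, log_re]

lemma sg_im {s : ℂ} (hs : ‖s‖ < 1 / 2) : |(sg s).im| ≤ 1 / 1000 := by
  have : sg s = ((-(1 / 2000) : ℝ) : ℂ) * log (1 - bb * s) := by unfold sg; push_cast; ring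
  rw [this, im_ofReal_mul, log_im]
  have h := abs_le.1 (abs_arg_le_pi_div_two_iff.2
    ((by linarith [d0_pos] : (0 : ℝ) ≤ d0 / 4).trans (re_pos hs).le))
  rw [abs_le]
  constructor <;> linarith [Real.pi_lt_four, h.1, h.2]

lemma sg_re_bounds {s : ℂ} (hs : ‖s‖ < 1 / 2) : -(1 / 1000) ≤ (sg s).re ∧ (sg s).re ≤ 20 := by
  rw [sg_re]
  have h0 := d0_pos
  have h1 : d0 / 4 ≤ ‖1 - (bb : ℂ) * s‖ := (re_pos hs).le.trans (re_le_norm _)
  have h2 : ‖1 - (bb : ℂ) * s‖ ≤ 2 := by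
    have := norm_sub_le (1 : ℂ) (bb * s)
    rw [norm_one] at this
    linarith [norm_bb_mul hs]
  have h3 := Real.log_le_sub_one_of_pos (lt_of_lt_of_le (by positivity) h1)
  have h4 := Real.log_le_log (by positivity) h1
  rw [Real.log_div h0.ne' (by norm_num), d0, Real.log_exp] at h4
  have h5 := Real.log_le_sub_one_of_pos (by norm_num : (0 : ℝ) < 4)
  constructor <;> linarith

lemma exp_sg {s : ℂ} (hs : ‖s‖ < 1 / 2) : exp (-2000 * sg s) = 1 - bb * s := by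
  rw [show -2000 * sg s = log (1 - bb * s) by unfold sg; ring, exp_log (slitPlane_ne_zero (slit hs))]

lemma quarter_le {s : ℂ} (hs : ‖s‖ < 1 / 2) (h : 1 / 2000 ≤ (sg s).re) : 1 / 4 ≤ ‖s‖ := by
  have h1 : ‖1 - (bb : ℂ) * s‖ ≤ 1 / 2 := by
    rw [← exp_sg hs, norm_exp]
    have h2 : (-2000 * sg s).re ≤ -1 := by simp; linarith
    refine (Real.exp_le_exp.2 h2).trans ?_
    rw [Real.exp_neg, inv_le_comm₀ (Real.exp_pos _) (by norm_num)]
    linarith [Real.add_one_le_exp 1]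
  have h3 := norm_sub_norm_le (1 : ℂ) (bb * s)
  rw [norm_one, norm_mul, Complex.norm_real, Real.norm_of_nonneg bb_pos.le] at h3
  have h4 : bb * ‖s‖ ≤ 2 * ‖s‖ :=
    mul_le_mul_of_nonneg_right (by unfold bb; linarith [d0_pos]) (norm_nonneg _)
  linarith

lemma norm_u {σ : ℂ} (h : |σ.im| ≤ 1 / 1000) : ‖5 / 13 * exp (-(I * σ))‖ ≤ 2 / 5 := by
  rw [norm_mul, norm_exp]
  have h1 := abs_le.1 (Real.abs_exp_sub_one_le (x := σ.im) (by linarith))
  have h2 : (-(I * σ)).re = σ.im := by simp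
  have h3 : ‖(5 / 13 : ℂ)‖ = 5 / 13 := by simp
  rw [h2, h3]
  linarith [h1.2]

lemma one_add_ne {u : ℂ} (h : ‖u‖ ≤ 2 / 5) : 1 + u ∈ slitPlane :=
  mem_slitPlane_of_norm_lt_one (by linarith)

lemma log_im_le {u : ℂ} (h : ‖u‖ ≤ 2 / 5) : |(log (1 + u)).im| ≤ 3 / 5 := by
  have := norm_log_one_add_half_le_self (z := u) (by linarith)
  linarith [abs_im_le_norm (log (1 + u))]

lemma log_const_im : (log (13 / 12 : ℂ)).im = 0 := by
  rw [log_im, arg_eq_zero_iff]
  norm_num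

lemma th_re {σ : ℂ} (h : |σ.im| ≤ 1 / 1000) : |(th σ).re - σ.re| ≤ 3 / 5 := by
  have := log_im_le (norm_u h)
  unfold th
  simp only [sub_re, mul_re, I_re, I_im, zero_mul, one_mul, log_const_im]
  convert this using 2
  ring

lemma exp_th {σ : ℂ} (h : |σ.im| ≤ 1 / 1000) :
    exp (I * th σ) = 13 / 12 * exp (I * σ) + 5 / 12 := by
  have e : I * th σ = I * σ + log (13 / 12) + log (1 + 5 / 13 * exp (-(I * σ))) := by
    unfold th
    linear_combination (-log (13 / 12) - log (1 + 5 / 13 * exp (-(I * σ)))) * I_mul_I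
  rw [e, exp_add, exp_add, exp_log (by norm_num), exp_log (slitPlane_ne_zero (one_add_ne (norm_u h))),
    exp_neg]
  have := exp_ne_zero (I * σ)
  field_simp

lemma pp_th {σ : ℂ} (h : |σ.im| ≤ 1 / 1000) : pp (th σ) = 13 / 12 * pp σ + 5 / 12 := by
  unfold pp
  rw [exp_th h]
  simp

lemma qq_th {σ : ℂ} (h : |σ.im| ≤ 1 / 1000) : qq (th σ) = 13 / 12 * qq σ := by
  unfold qq
  rw [exp_th h]
  simp

lemma pp_sq_add (θ : ℂ) : pp θ * pp θ + qq θ * qq θ = Real.exp (-(2 * θ.im)) := by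
  rw [pp_eq, qq_eq, show -(2 * θ.im) = -θ.im + -θ.im by ring, Real.exp_add]
  linear_combination (Real.exp (-θ.im) * Real.exp (-θ.im)) * Real.sin_sq_add_cos_sq θ.re

lemma QQ_th {σ : ℂ} (h : |σ.im| ≤ 1 / 1000) : |QQ (th σ) - 169 / 144| ≤ 1 / 200 := by
  have h1 : QQ (th σ) = 169 / 144 * Real.exp (-(2 * σ.im)) := by
    rw [← pp_sq_add, QQ, pp_th h, qq_th h]
    ring
  have h2 : |-(2 * σ.im)| ≤ 1 / 500 := by
    rw [abs_neg, abs_mul, abs_two]; linarith
  have h3 := abs_le.1 (Real.abs_exp_sub_one_le (x := -(2 * σ.im)) (by linarith))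
  rw [h1, abs_le]
  constructor <;> linarith [h3.1, h3.2]

lemma tt_re {s : ℂ} (hs : ‖s‖ < 1 / 2) : |(tt s).re| ≤ 21 := by
  have h1 := abs_le.1 (th_re (sg_im hs))
  have h2 := sg_re_bounds hs
  unfold tt
  rw [abs_le]
  constructor <;> linarith [h1.1, h1.2, h2.1, h2.2]

lemma quarter_le' {s : ℂ} (hs : ‖s‖ < 1 / 2) (h : pp (tt s) ≤ 1 / 100) : 1 / 4 ≤ ‖s‖ := by
  refine quarter_le hs ?_
  by_contra hcon
  have h1 := (sg_re_bounds hs).1
  have h2 : 0 ≤ Real.cos (sg s).re := Real.cos_nonneg_of_neg_pi_div_two_le_of_le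
    (by linarith [Real.pi_gt_three]) (by linarith [Real.pi_gt_three])
  have h3 : 0 ≤ pp (sg s) := by rw [pp_eq]; positivity
  rw [tt, pp_th (sg_im hs)] at h
  linarith

lemma tt_inj {s s' : ℂ} (hs : ‖s‖ < 1 / 2) (hs' : ‖s'‖ < 1 / 2) (h : tt s = tt s') : s = s' := by
  have h1 := exp_th (sg_im hs)
  have h2 := exp_th (sg_im hs')
  unfold tt at h
  rw [h, h2] at h1
  have h3 : exp (I * sg s') = exp (I * sg s) := by linear_combination (12 / 13) * h1
  unfold th at h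
  rw [exp_neg, exp_neg, h3] at h
  have h4 : sg s = sg s' := by linear_combination h
  have h5 := exp_sg hs
  rw [h4, exp_sg hs'] at h5
  have h6 : (bb : ℂ) ≠ 0 := by exact_mod_cast bb_pos.ne'
  exact mul_left_cancel₀ h6 (by linear_combination h5)

lemma key {θ : ℂ} (h1 : |QQ θ - 169 / 144| ≤ 1 / 200) (h2 : |QR θ - 169 / 144| ≤ 1 / 200)
    (h3 : 0 ≤ qq θ) : |pp θ| ≤ 1 / 100 ∧ ‖-(I * exp (I * θ)) - 1‖ ≤ 1 / 100 ∧
      ∃ j : ℤ, ‖θ - π / 2 - ((j * (2 * π) : ℝ) : ℂ)‖ ≤ 3 / 200 := by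
  obtain ⟨a1, a2⟩ := abs_le.1 h1
  obtain ⟨a3, a4⟩ := abs_le.1 h2
  unfold QQ at a1 a2
  unfold QR at a3 a4
  have b1 : -(6 / 1000) ≤ pp θ := by linarith
  have b2 : pp θ ≤ 6 / 1000 := by linarith
  have b3 : pp θ * pp θ ≤ 36 / 1000000 := by nlinarith
  have b4 : qq θ ≤ 1 + 51 / 10000 := by nlinarith [mul_self_nonneg (pp θ)]
  have b5 : 1 - 51 / 10000 ≤ qq θ := by nlinarith
  have hg : ‖-(I * exp (I * θ)) - 1‖ ≤ 1 / 100 := by
    refine (abs_le_of_sq_le_sq' ?_ (by norm_num)).2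
    rw [Complex.sq_norm, Complex.normSq_apply]
    have e1 : (-(I * exp (I * θ)) - 1).re = qq θ - 1 := by simp [qq]
    have e2 : (-(I * exp (I * θ)) - 1).im = -pp θ := by simp [pp]
    rw [e1, e2]
    nlinarith
  refine ⟨abs_le.2 ⟨by linarith, by linarith⟩, hg, ?_⟩
  set g := -(I * exp (I * θ)) with hgd
  have hg0 : g ≠ 0 := neg_ne_zero.2 (mul_ne_zero I_ne_zero (exp_ne_zero _))
  have e : exp (I * (θ - π / 2)) = exp (log g) := by
    rw [exp_log hg0, show I * (θ - π / 2) = I * θ + -(π / 2 * I) by ring, exp_add, exp_neg,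
      exp_pi_div_two_mul_I, inv_I]
    ring
  obtain ⟨j, hj⟩ := exp_eq_exp_iff_exists_int.1 e
  refine ⟨j, ?_⟩
  have e2 : I * (θ - π / 2 - ((j * (2 * π) : ℝ) : ℂ)) = log (1 + (g - 1)) := by
    push_cast
    rw [add_sub_cancel]
    linear_combination hj
  have h4 := norm_log_one_add_half_le_self (z := g - 1) (by linarith)
  rw [← e2, norm_mul, norm_I, one_mul] at h4
  linarith

lemma lev_est {τ g : ℂ} {x : ℝ} (h1 : ‖τ - x‖ ≤ 3 / 200) (h2 : |x| ≤ 25) (h3 : ‖g - 1‖ ≤ 1 / 100) :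
    |(τ * (2 + g)).re - 3 * x| ≤ 1 / 2 ∧ |(τ * (2 - g)).re - x| ≤ 1 / 2 := by
  have hx : ‖(x : ℂ) * (g - 1)‖ ≤ 25 * (1 / 100) := by
    rw [norm_mul, Complex.norm_real, Real.norm_eq_abs]
    exact mul_le_mul h2 h3 (norm_nonneg _) (by norm_num)
  constructor
  · have e : (τ * (2 + g)).re - 3 * x = ((τ - x) * (3 + (g - 1)) + x * (g - 1)).re := by
      simp; ring
    have k : ‖3 + (g - 1)‖ ≤ 4 := (norm_add_le _ _).trans (by simp; linarith)
    have k2 : ‖(τ - x) * (3 + (g - 1))‖ ≤ 3 / 200 * 4 := by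
      rw [norm_mul]
      exact mul_le_mul h1 k (norm_nonneg _) (by norm_num)
    rw [e]
    linarith [abs_re_le_norm ((τ - x) * (3 + (g - 1)) + x * (g - 1)),
      norm_add_le ((τ - x) * (3 + (g - 1))) (x * (g - 1))]
  · have e : (τ * (2 - g)).re - x = ((τ - x) * (1 - (g - 1)) - x * (g - 1)).re := by
      simp; ring
    have k : ‖1 - (g - 1)‖ ≤ 4 := (norm_sub_le _ _).trans (by simp; linarith)
    have k2 : ‖(τ - x) * (1 - (g - 1))‖ ≤ 3 / 200 * 4 := by
      rw [norm_mul]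
      exact mul_le_mul h1 k (norm_nonneg _) (by norm_num)
    rw [e]
    linarith [abs_re_le_norm ((τ - x) * (1 - (g - 1)) - x * (g - 1)),
      norm_sub_le ((τ - x) * (1 - (g - 1))) (x * (g - 1))]

lemma exp_even (θ : ℂ) (j : ℤ) : exp (I * (θ + (2 * j : ℤ) * π)) = exp (I * θ) := by
  rw [show I * (θ + (2 * j : ℤ) * π) = I * θ + j * (2 * π * I) by push_cast; ring, exp_add,
    exp_int_mul_two_pi_mul_I, mul_one]

lemma exp_odd (θ : ℂ) (j : ℤ) : exp (I * (θ + (2 * j + 1 : ℤ) * π)) = -exp (I * θ) := by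
  rw [show I * (θ + (2 * j + 1 : ℤ) * π) = I * θ + j * (2 * π * I) + π * I by push_cast; ring,
    exp_add, exp_add, exp_int_mul_two_pi_mul_I, exp_pi_mul_I]
  ring

lemma mf_even (θ : ℂ) (j : ℤ) :
    (mf (θ + (2 * j : ℤ) * π)).re = (mf θ).re + j * (2 * π) * (2 + qq θ) := by
  unfold mf
  rw [exp_even]
  simp [qq]
  ring

lemma qq_ge {θ : ℂ} (h : |QQ θ - 169 / 144| ≤ 1 / 200) : -(6 / 5) ≤ qq θ := by
  have := (abs_le.1 h).2
  unfold QQ at this
  nlinarith [mul_self_nonneg (pp θ - 5 / 12)]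

lemma level_even {θ : ℂ} {x : ℝ} (j : ℤ) (h1 : ‖θ - π / 2 - x‖ ≤ 3 / 200)
    (h2 : |x + (2 * j : ℤ) * π| ≤ 25) (h3 : ‖-(I * exp (I * θ)) - 1‖ ≤ 1 / 100) :
    |(mf (θ + (2 * j : ℤ) * π)).re - 3 * (x + (2 * j : ℤ) * π)| ≤ 1 / 2 := by
  have := (lev_est (τ := θ + (2 * j : ℤ) * π - π / 2) (by
    convert h1 using 2; push_cast; ring) h2 h3).1
  unfold mf
  rw [exp_even]
  simpa only [sub_eq_add_neg] using this

lemma level_odd {θ : ℂ} {x : ℝ} (j : ℤ) (h1 : ‖θ - π / 2 - x‖ ≤ 3 / 200)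
    (h2 : |x + (2 * j + 1 : ℤ) * π| ≤ 25) (h3 : ‖-(I * exp (I * θ)) - 1‖ ≤ 1 / 100) :
    |(mf (θ + (2 * j + 1 : ℤ) * π)).re - (x + (2 * j + 1 : ℤ) * π)| ≤ 1 / 2 := by
  have := (lev_est (τ := θ + (2 * j + 1 : ℤ) * π - π / 2) (by
    convert h1 using 2; push_cast; ring) h2 h3).2
  unfold mf
  rw [exp_odd, mul_neg]
  exact this

lemma lev_le {θ θ' : ℂ} (h : (mf θ).re ≤ (mf θ').re) : lev θ ≤ lev θ' := by
  unfold lev
  simp only [sub_re]
  gcongr

lemma continuous_lev : Continuous lev := by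
  unfold lev mf
  fun_prop

theorem nesting (θ : ℂ) (h0 : 0 < θ.re) (h1 : θ.re ≤ π) (s1 : Strip θ) (s2 : Strip (θ + π))
    (hq : 0 ≤ qq θ) : lev θ ≤ lev (θ + π) ∧ lev (θ + π) ≤ lev (θ + π + π + π) ∧
      lev (θ + π + π + π) ≤ lev (θ + π + π + π + π + π) ∧
      lev (θ + π + π + π + π + π) ≤ lev (θ + π + π) := by
  unfold Strip at s1 s2
  rw [QQ_add_pi] at s2
  obtain ⟨-, hg, j, hj⟩ := key (s1.trans (by norm_num)) (s2.trans (by norm_num)) hq
  have hπ := Real.pi_gt_three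
  have hπ' := Real.pi_lt_four
  have hj0 : j = 0 := by
    have k := abs_le.1 ((abs_re_le_norm _).trans hj)
    simp only [sub_re, ofReal_re, div_ofNat_re] at k
    have k1 : (-1 : ℝ) < j := by nlinarith [k.1, k.2]
    have k2 : (j : ℝ) < 1 := by nlinarith [k.1, k.2]
    have k3 : -1 < j := by exact_mod_cast k1
    have k4 : j < 1 := by exact_mod_cast k2
    omega
  subst hj0
  have l0 := abs_le.1 (level_even 0 hj (abs_le.2 ⟨by push_cast; linarith, by push_cast; linarith⟩) hg)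
  have l2 := abs_le.1 (level_even 1 hj (abs_le.2 ⟨by push_cast; linarith, by push_cast; linarith⟩) hg)
  have l1 := abs_le.1 (level_odd 0 hj (abs_le.2 ⟨by push_cast; linarith, by push_cast; linarith⟩) hg)
  have l3 := abs_le.1 (level_odd 1 hj (abs_le.2 ⟨by push_cast; linarith, by push_cast; linarith⟩) hg)
  have l5 := abs_le.1 (level_odd 2 hj (abs_le.2 ⟨by push_cast; linarith, by push_cast; linarith⟩) hg)
  rw [show θ + ((2 * 0 : ℤ) : ℂ) * π = θ by push_cast; ring] at l0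
  rw [show θ + ((2 * 1 : ℤ) : ℂ) * π = θ + π + π by push_cast; ring] at l2
  rw [show θ + ((2 * 0 + 1 : ℤ) : ℂ) * π = θ + π by push_cast; ring] at l1
  rw [show θ + ((2 * 1 + 1 : ℤ) : ℂ) * π = θ + π + π + π by push_cast; ring] at l3
  rw [show θ + ((2 * 2 + 1 : ℤ) : ℂ) * π = θ + π + π + π + π + π by push_cast; ring] at l5
  push_cast at l0 l1 l2 l3 l5
  exact ⟨lev_le (by linarith [l0.2, l1.1]), lev_le (by linarith [l1.2, l3.1]),
    lev_le (by linarith [l3.2, l5.1]), lev_le (by linarith [l5.2, l2.1])⟩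

lemma lev_double {θ : ℂ} (h : Strip θ) : 2 * lev θ ≤ lev (θ + π + π) := by
  have h1 := mf_even θ 1
  rw [show θ + ((2 * 1 : ℤ) : ℂ) * π = θ + π + π by push_cast; ring] at h1
  have h2 := qq_ge (h.trans (by norm_num))
  have hπ := Real.pi_gt_three
  unfold lev
  simp only [sub_re]
  rw [h1]
  have h3 : 2 * ((mf θ).re - (mf (tt 0)).re) + 1
      ≤ 2 * ((mf θ).re + ((1 : ℤ) : ℝ) * (2 * π) * (2 + qq θ) - (mf (tt 0)).re) := by
    push_cast
    nlinarith
  have h4 := Real.exp_le_exp.2 h3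
  rw [Real.exp_add] at h4
  have h5 := Real.add_one_le_exp 1
  have h6 := Real.exp_pos (2 * ((mf θ).re - (mf (tt 0)).re))
  have h7 := (mul_le_mul_of_nonneg_left h5 h6.le).trans h4
  generalize Real.exp (2 * ((mf θ).re - (mf (tt 0)).re)) = X at h7 ⊢
  generalize Real.exp (2 * ((mf θ).re + ((1 : ℤ) : ℝ) * (2 * π) * (2 + qq θ) - (mf (tt 0)).re))
    = Y at h7 ⊢
  linarith

lemma norm_AA (s : ℂ) : ‖AA s‖ = Real.exp ((mf (tt s)).re - (mf (tt 0)).re) := by
  rw [AA, norm_exp, sub_re]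

lemma lev_tt (s : ℂ) : lev (tt s) = ‖AA s‖ ^ 2 / 2 := by
  rw [norm_AA, lev, sub_re, ← Real.exp_nat_mul]
  norm_num

lemma gap {s s' z z' : ℂ} (hz : ‖z‖ < 1) (hz' : 1 / 4 ≤ ‖z'‖) (h : z * AA s = z' * AA s') :
    (mf (tt s')).re < (mf (tt s)).re + 2 := by
  have h1 := congrArg norm h
  rw [norm_mul, norm_mul, norm_AA, norm_AA] at h1
  have h2 : (mf (tt s')).re - (mf (tt 0)).re < (mf (tt s)).re - (mf (tt 0)).re + 1 + 1 := by
    rw [← Real.exp_lt_exp, Real.exp_add, Real.exp_add]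
    have h3 := Real.add_one_le_exp 1
    have h4 := Real.exp_pos ((mf (tt s)).re - (mf (tt 0)).re)
    have h5 := Real.exp_pos ((mf (tt s')).re - (mf (tt 0)).re)
    have h6 : 4 ≤ Real.exp 1 * Real.exp 1 := by nlinarith
    nlinarith
  linarith

lemma even_case {s s' z z' : ℂ} (hs : ‖s‖ < 1 / 2) (hs' : ‖s'‖ < 1 / 2) (hz : ‖z‖ < 1)
    (hz' : ‖s'‖ ≤ ‖z'‖) (h : z * AA s = z' * AA s') {j : ℤ} (hj : 0 < j)
    (ht : tt s' = tt s + (2 * j : ℤ) * π) : False := by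
  have hπ := Real.pi_gt_three
  have hj1 : (1 : ℝ) ≤ j := by exact_mod_cast hj
  have h1 := congrArg re ht
  simp only [add_re, mul_re, intCast_re, ofReal_re, intCast_im, ofReal_im, mul_zero,
    sub_zero] at h1
  push_cast at h1
  have h2 := abs_le.1 (th_re (sg_im hs))
  have h3 := abs_le.1 (th_re (sg_im hs'))
  have h4 := (sg_re_bounds hs).1
  have h5 : 1 / 4 ≤ ‖s'‖ := quarter_le hs' (by unfold tt at h1; nlinarith [h2.1, h3.2])
  have h6 := gap hz (h5.trans hz') h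
  rw [ht, mf_even] at h6
  have h7 : -(6 / 5) ≤ qq (tt s) := qq_ge (QQ_th (sg_im hs))
  have h8 : 6 ≤ j * (2 * π) := by nlinarith
  nlinarith

lemma odd_case {s s' z z' : ℂ} (hs : ‖s‖ < 1 / 2) (hs' : ‖s'‖ < 1 / 2) (hz : ‖z‖ < 1)
    (hz' : ‖z'‖ < 1) (hsz : ‖s‖ ≤ ‖z‖) (hsz' : ‖s'‖ ≤ ‖z'‖) (h : z * AA s = z' * AA s') {n : ℤ}
    (ht : tt s' = tt s + (2 * n + 1 : ℤ) * π) (hq : 0 ≤ qq (tt s)) : False := by
  have hπ := Real.pi_gt_three
  have hπ' := Real.pi_lt_four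
  have e1 : pp (tt s') = -pp (tt s) := by unfold pp; rw [ht, exp_odd, neg_re]
  have e2 : qq (tt s') = -qq (tt s) := by unfold qq; rw [ht, exp_odd, neg_im]
  have e3 : QQ (tt s') = QR (tt s) := by unfold QQ QR; rw [e1, e2]; ring
  have q1 : |QQ (tt s) - 169 / 144| ≤ 1 / 200 := QQ_th (sg_im hs)
  have q2 : |QQ (tt s') - 169 / 144| ≤ 1 / 200 := QQ_th (sg_im hs')
  rw [e3] at q2
  obtain ⟨hp, hg, j, hj⟩ := key q1 q2 hq
  have g1 := gap hz ((quarter_le' hs' (by rw [e1]; linarith [(abs_le.1 hp).1])).trans hsz') h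
  have g2 := gap hz' ((quarter_le' hs (abs_le.1 hp).2).trans hsz) h.symm
  have k := abs_le.1 ((abs_re_le_norm _).trans hj)
  simp only [sub_re, ofReal_re, div_ofNat_re] at k
  have r1 := abs_le.1 (tt_re hs)
  have r2 := abs_le.1 (tt_re hs')
  have h1 := congrArg re ht
  simp only [add_re, mul_re, intCast_re, ofReal_re, intCast_im, ofReal_im, mul_zero,
    sub_zero] at h1
  have l0 := abs_le.1 (level_even 0 hj (abs_le.2 ⟨by push_cast; linarith [k.1, k.2, r1.1, r1.2],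
    by push_cast; linarith [k.1, k.2, r1.1, r1.2]⟩) hg)
  have l1 := abs_le.1 (level_odd n hj (abs_le.2 ⟨by linarith [k.1, k.2, r2.1, r2.2],
    by linarith [k.1, k.2, r2.1, r2.2]⟩) hg)
  rw [show tt s + ((2 * 0 : ℤ) : ℂ) * π = tt s by push_cast; ring] at l0
  rw [← ht] at l1
  push_cast at l0 l1
  have a1 : ((4 * j - (2 * n + 1) : ℤ) : ℝ) * π < 3 := by push_cast; linarith [l0.1, l1.2]
  have a2 : -3 < ((4 * j - (2 * n + 1) : ℤ) : ℝ) * π := by push_cast; linarith [l0.2, l1.1]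
  have a3 : ((4 * j - (2 * n + 1) : ℤ) : ℝ) < 1 := by nlinarith
  have a4 : -1 < ((4 * j - (2 * n + 1) : ℤ) : ℝ) := by nlinarith
  have a5 : 4 * j - (2 * n + 1) < 1 := by exact_mod_cast a3
  have a6 : -1 < 4 * j - (2 * n + 1) := by exact_mod_cast a4
  omega

theorem inj_s {s s' z z' : ℂ} (hs : ‖s‖ < 1 / 2) (hs' : ‖s'‖ < 1 / 2) (hz : ‖z‖ < 1)
    (hz' : ‖z'‖ < 1) (hsz : ‖s‖ ≤ ‖z‖) (hsz' : ‖s'‖ ≤ ‖z'‖) (h : z * AA s = z' * AA s')
    (hU : UU s' = UU s) : s = s' := by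
  obtain ⟨n, hn⟩ := exists_shift hU
  obtain ⟨j, rfl | rfl⟩ := Int.even_or_odd' n
  · rcases lt_trichotomy j 0 with hj | rfl | hj
    · exact (even_case hs' hs hz' hsz h.symm (j := -j) (by omega)
        (by rw [hn]; push_cast; ring)).elim
    · exact tt_inj hs hs' (by rw [hn]; push_cast; ring)
    · exact (even_case hs hs' hz hsz' h hj hn).elim
  · rcases le_total 0 (qq (tt s)) with hq | hq
    · exact (odd_case hs hs' hz hz' hsz hsz' h hn hq).elim
    · refine (odd_case hs' hs hz' hz hsz' hsz h.symm (n := -j - 1)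
        (by rw [hn]; push_cast; ring) ?_).elim
      have e2 : qq (tt s') = -qq (tt s) := by unfold qq; rw [hn, exp_odd, neg_im]
      linarith

theorem wall {θ : ℂ} (h : Strip θ) (h1 : 1 ≤ θ.re) (h2 : θ.re ≤ 6 * π - 1) :
    ∃ s : ℂ, 2 * ‖s‖ ^ 2 ≤ 1 / 2 - d0 / 4 ∧ tt s = θ := by
  set w : ℂ := (exp (I * θ) - 5 / 12) * (12 / 13) with hw
  have hwn : ‖w‖ ^ 2 = QQ θ * (144 / 169) := by
    rw [Complex.sq_norm, Complex.normSq_apply]
    have e1 : w.re = (pp θ - 5 / 12) * (12 / 13) := by simp [hw, pp]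
    have e2 : w.im = qq θ * (12 / 13) := by simp [hw, qq]
    rw [e1, e2, QQ]
    ring
  obtain ⟨a1, a2⟩ := abs_le.1 h
  have w1 : 1 - 1 / 10000 ≤ ‖w‖ ^ 2 := by linarith
  have w2 : ‖w‖ ^ 2 ≤ 1 + 1 / 10000 := by linarith
  have w3 : 99 / 100 ≤ ‖w‖ := by nlinarith [norm_nonneg w]
  have w0 : w ≠ 0 := norm_pos_iff.1 (by linarith)
  have hu : ‖5 / 13 * w⁻¹‖ ≤ 2 / 5 := by
    have h3 : ‖(5 / 13 : ℂ)‖ = 5 / 13 := by simp
    rw [norm_mul, norm_inv, h3, ← div_eq_mul_inv, div_le_iff₀ (by linarith)]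
    linarith
  set σ : ℂ := θ + I * log (13 / 12) + I * log (1 + 5 / 13 * w⁻¹) with hσ
  have hu0 := slitPlane_ne_zero (one_add_ne hu)
  have he : exp (I * σ) = w := by
    have e : I * σ = I * θ + -log (13 / 12) + -log (1 + 5 / 13 * w⁻¹) := by
      rw [hσ]
      linear_combination (log (13 / 12) + log (1 + 5 / 13 * w⁻¹)) * I_mul_I
    have e2 : exp (I * θ) = w * (13 / 12) * (1 + 5 / 13 * w⁻¹) := by
      have : w * (13 / 12) * (1 + 5 / 13 * w⁻¹) = w * (13 / 12) + 5 / 12 := by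
        field_simp
      rw [this, hw]
      ring
    rw [e, exp_add, exp_add, exp_neg, exp_neg, exp_log (by norm_num), exp_log hu0, e2]
    generalize 1 + 5 / 13 * w⁻¹ = y at hu0
    field_simp
  have hth : th σ = θ := by
    unfold th
    rw [exp_neg, he, hσ]
    ring
  have him : |σ.im| ≤ 1 / 10000 := by
    have e1 : Real.exp (-(2 * σ.im)) = ‖w‖ ^ 2 := by
      rw [← he, norm_exp, ← Real.exp_nat_mul]
      congr 1
      simp
    have e2 := Real.add_one_le_exp (-(2 * σ.im))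
    have e3 := Real.add_one_le_exp (2 * σ.im)
    have e4 : Real.exp (2 * σ.im) * Real.exp (-(2 * σ.im)) = 1 := by
      rw [← Real.exp_add]; simp
    have e5 := Real.exp_pos (2 * σ.im)
    rw [abs_le]
    constructor <;> nlinarith
  have hre : 2 / 5 ≤ σ.re ∧ σ.re ≤ 19 := by
    have e1 := abs_le.1 (th_re (σ := σ) (him.trans (by norm_num)))
    rw [hth] at e1
    constructor <;> linarith [e1.1, e1.2, Real.pi_lt_d2]
  set E := exp (-2000 * σ) with hE
  have hb : (bb : ℂ) ≠ 0 := by exact_mod_cast bb_pos.ne'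
  have hi := abs_le.1 him
  refine ⟨(1 - E) / bb, ?_, ?_⟩
  · have e0 : (-2000 * σ).re = -2000 * σ.re := by simp
    have e1 : (-2000 * σ).im = -2000 * σ.im := by simp
    have n1 : d0 ≤ ‖E‖ := by
      rw [hE, norm_exp, e0]
      exact Real.exp_le_exp.2 (by linarith [hre.2])
    have n2 : ‖E‖ ≤ 1 / 2 := by
      rw [hE, norm_exp, e0]
      refine (Real.exp_le_exp.2 (by linarith [hre.1] : _ ≤ (-1 : ℝ))).trans ?_
      rw [Real.exp_neg, inv_le_comm₀ (Real.exp_pos _) (by norm_num)]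
      linarith [Real.add_one_le_exp 1]
    have n3 : E.re = ‖E‖ * Real.cos (-2000 * σ.im) := by
      rw [hE, exp_re, norm_exp, e1]
    have n4 : 3 / 4 ≤ Real.cos (-2000 * σ.im) := by
      have := Real.one_sub_sq_div_two_le_cos (x := -2000 * σ.im)
      nlinarith [hi.1, hi.2]
    have n5 : ‖1 - E‖ ^ 2 = 1 - 2 * E.re + ‖E‖ ^ 2 := by
      rw [Complex.sq_norm, Complex.sq_norm, Complex.normSq_apply, Complex.normSq_apply]
      simp
      ring
    have n0 := d0_pos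
    have n6 : ‖1 - E‖ ^ 2 ≤ 1 - d0 := by
      rw [n5, n3]
      nlinarith [mul_le_mul_of_nonneg_left n4 (norm_nonneg E)]
    rw [norm_div, div_pow, Complex.norm_real, Real.norm_of_nonneg bb_pos.le, ← mul_div_assoc,
      div_le_iff₀ (pow_pos bb_pos 2)]
    unfold bb
    nlinarith [d0_le, mul_pos n0 n0, mul_nonneg (mul_pos n0 n0).le (sub_nonneg.2 d0_le)]
  · have : sg ((1 - E) / bb) = σ := by
      unfold sg
      rw [show 1 - (bb : ℂ) * ((1 - E) / bb) = E by field_simp; ring, hE,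
        log_exp (by simp; linarith [Real.pi_gt_three, hi.2]) (by simp; linarith [Real.pi_gt_three, hi.1])]
      ring
    rw [tt, this, hth]

lemma differentiableAt_sg {s : ℂ} (hs : ‖s‖ < 1 / 2) : DifferentiableAt ℂ sg s :=
  (DifferentiableAt.clog (f := fun s : ℂ => 1 - (bb : ℂ) * s) (by fun_prop) (slit hs)).const_mul _

lemma differentiableAt_tt {s : ℂ} (hs : ‖s‖ < 1 / 2) : DifferentiableAt ℂ tt s := by
  have h := differentiableAt_sg hs
  exact (h.sub_const _).sub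
    ((DifferentiableAt.clog (f := fun s : ℂ => 1 + 5 / 13 * exp (-(I * sg s))) (by fun_prop)
      (one_add_ne (norm_u (sg_im hs)))).const_mul _)

lemma differentiable_mf : Differentiable ℂ mf := by
  unfold mf
  fun_prop

lemma differentiableAt_AA {s : ℂ} (hs : ‖s‖ < 1 / 2) : DifferentiableAt ℂ AA s :=
  (((differentiable_mf _).comp s (differentiableAt_tt hs)).sub_const _).cexp

lemma differentiableAt_UU {s : ℂ} (hs : ‖s‖ < 1 / 2) : DifferentiableAt ℂ UU s :=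
  ((differentiableAt_tt hs).const_mul _).cexp

lemma AA_ne (s : ℂ) : AA s ≠ 0 := exp_ne_zero _

lemma UU_eq {s : ℂ} (hs : ‖s‖ < 1 / 2) : UU s = (13 / 12 * exp (I * sg s) + 5 / 12) ^ 2 := by
  rw [← exp_th (sg_im hs), ← exp_nat_mul, UU, tt]
  congr 1
  push_cast
  ring

lemma sg_zero : sg 0 = 0 := by simp [sg]

lemma c0_ne : c0 ≠ 0 := by
  have h1 : HasDerivAt sg (-(1 / 2000) * (-(bb : ℂ) / (1 - bb * 0))) 0 := by
    have : HasDerivAt (fun s : ℂ => 1 - (bb : ℂ) * s) (-(bb : ℂ)) 0 := by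
      simpa using ((hasDerivAt_id (0 : ℂ)).const_mul (bb : ℂ)).const_sub 1
    exact (this.clog (slit (by simp))).const_mul _
  have h2 := ((((h1.const_mul I).cexp).const_mul (13 / 12)).add_const (5 / 12)).pow 2
  have h3 : UU =ᶠ[𝓝 0] fun s => (13 / 12 * exp (I * sg s) + 5 / 12) ^ 2 := by
    filter_upwards [ball_mem_nhds (0 : ℂ) (by norm_num : (0 : ℝ) < 1 / 2)] with s hs
    exact UU_eq (by simpa using hs)
  have hb : (bb : ℂ) ≠ 0 := by exact_mod_cast bb_pos.ne'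
  rw [c0, (h2.congr_of_eventuallyEq h3).deriv]
  simp [sg_zero, hb]
  norm_num

lemma differentiableAt_BB {s : ℂ} (hs : ‖s‖ < 1 / 2) : DifferentiableAt ℂ BB s := by
  have h1 : DifferentiableOn ℂ UU (ball 0 (1 / 2)) := fun x hx =>
    (differentiableAt_UU (by simpa using hx)).differentiableWithinAt
  have h2 := (differentiableOn_dslope (ball_mem_nhds (0 : ℂ) (by norm_num))).2 h1
  exact (h2.differentiableAt (isOpen_ball.mem_nhds (by simpa using hs))).div
    ((differentiableAt_AA hs).const_mul _) (mul_ne_zero c0_ne (AA_ne s))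

lemma AA_zero : AA 0 = 1 := by simp [AA]

lemma BB_zero : BB 0 = 1 := by
  rw [BB, dslope_same, AA_zero, mul_one]
  exact div_self c0_ne

lemma UU_formula (s : ℂ) : c0 * (s * AA s * BB s) + UU 0 = UU s := by
  have h := sub_smul_dslope UU 0 s
  rw [sub_zero, smul_eq_mul] at h
  have h1 := c0_ne
  have h2 := AA_ne s
  have : c0 * (s * AA s * BB s) = s * dslope UU 0 s := by
    unfold BB
    field_simp
  rw [this, h]
  ring

lemma exists_base : ∃ θ : ℂ, QQ θ = 169 / 144 ∧ 1 < θ.re ∧ θ.re < 4 * π - 1 := by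
  have hπ := Real.pi_gt_three
  refine ⟨⟨2 * π, -Real.log (3 / 2)⟩, ?_, by simp only; linarith, by simp only; linarith⟩
  rw [QQ, pp_eq, qq_eq]
  simp only [neg_neg, Real.cos_two_pi, Real.sin_two_pi]
  rw [Real.exp_log (by norm_num)]
  norm_num

end Pool.Agent.MP_161a40_an.H4
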