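import Pool.Agent.MP_161a40_an.H4.Geom

/-!
The counterexample: a normalized univalent map of the unit ball of `ℂ²` and a radius `r < 1` such
that the image of the ball of radius `r` is not Runge in any domain biholomorphic to `ℂ²`.
-/

set_option autoImplicit false

open Complex Metric Set Filter
open scoped Real Topology

namespace Pool.Agent.MP_161a40_an.H4

/-- Coordinates on the Euclidean plane. -/
noncomputable def La : EuclideanSpace ℂ (Fin 2) ≃L[ℂ] ℂ × ℂ :=
  (EuclideanSpace.equiv (Fin 2) ℂ).trans (ContinuousLinearEquiv.finTwoArrow ℂ ℂ)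

lemma norm_sq_La (x : EuclideanSpace ℂ (Fin 2)) : ‖x‖ ^ 2 = ‖(La x).1‖ ^ 2 + ‖(La x).2‖ ^ 2 := by
  rw [EuclideanSpace.norm_sq_eq, Fin.sum_univ_two]
  rfl

/-- The map in coordinates. -/
noncomputable def F2 (p : ℂ × ℂ) : ℂ × ℂ := (p.1 * AA (p.1 * p.2), p.2 * BB (p.1 * p.2))

/-- The univalent map. -/
noncomputable def ff (x : EuclideanSpace ℂ (Fin 2)) : EuclideanSpace ℂ (Fin 2) :=
  La.symm (F2 (La x))

lemma ball_facts {x : EuclideanSpace ℂ (Fin 2)} (hx : ‖x‖ < 1) :
    ‖(La x).1 * (La x).2‖ < 1 / 2 ∧ ‖(La x).1‖ < 1 ∧ ‖(La x).1 * (La x).2‖ ≤ ‖(La x).1‖ := by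
  have h1 := norm_sq_La x
  have h2 : ‖x‖ ^ 2 < 1 := by nlinarith [norm_nonneg x]
  have h3 := norm_nonneg (La x).1
  have h4 := norm_nonneg (La x).2
  have h5 : ‖(La x).2‖ ≤ 1 := by nlinarith
  rw [norm_mul]
  exact ⟨by nlinarith [sq_nonneg (‖(La x).1‖ - ‖(La x).2‖)], by nlinarith,
    mul_le_of_le_one_right h3 h5⟩

lemma differentiableAt_F2 {p : ℂ × ℂ} (hp : ‖p.1 * p.2‖ < 1 / 2) : DifferentiableAt ℂ F2 p := by
  have h : DifferentiableAt ℂ (fun p : ℂ × ℂ => p.1 * p.2) p := by fun_prop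
  have hA : DifferentiableAt ℂ (fun p : ℂ × ℂ => AA (p.1 * p.2)) p :=
    DifferentiableAt.comp (f := fun p : ℂ × ℂ => p.1 * p.2) p (differentiableAt_AA hp) h
  have hB : DifferentiableAt ℂ (fun p : ℂ × ℂ => BB (p.1 * p.2)) p :=
    DifferentiableAt.comp (f := fun p : ℂ × ℂ => p.1 * p.2) p (differentiableAt_BB hp) h
  exact (differentiableAt_fst.mul hA).prodMk (differentiableAt_snd.mul hB)

lemma differentiableAt_ff {x : EuclideanSpace ℂ (Fin 2)} (hx : ‖x‖ < 1) :
    DifferentiableAt ℂ ff x :=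
  La.symm.differentiableAt.comp x
    ((differentiableAt_F2 (ball_facts hx).1).comp x La.differentiableAt)

lemma ff_zero : ff 0 = 0 := by
  have : F2 0 = 0 := by simp [F2]
  rw [ff, map_zero, this, map_zero]

lemma fderiv_ff : fderiv ℂ ff 0 = ContinuousLinearMap.id ℂ (EuclideanSpace ℂ (Fin 2)) := by
  have h : DifferentiableAt ℂ (fun p : ℂ × ℂ => p.1 * p.2) 0 := by fun_prop
  have hp : ‖(0 : ℂ × ℂ).1 * (0 : ℂ × ℂ).2‖ < 1 / 2 := by simp
  have hA : DifferentiableAt ℂ (fun p : ℂ × ℂ => AA (p.1 * p.2)) 0 :=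
    DifferentiableAt.comp (f := fun p : ℂ × ℂ => p.1 * p.2) 0 (differentiableAt_AA hp) h
  have hB : DifferentiableAt ℂ (fun p : ℂ × ℂ => BB (p.1 * p.2)) 0 :=
    DifferentiableAt.comp (f := fun p : ℂ × ℂ => p.1 * p.2) 0 (differentiableAt_BB hp) h
  have h1 := (hasFDerivAt_fst.mul hA.hasFDerivAt).prodMk (hasFDerivAt_snd.mul hB.hasFDerivAt)
  have h2 : HasFDerivAt F2 (ContinuousLinearMap.id ℂ (ℂ × ℂ)) (La 0) := by
    rw [map_zero]
    refine HasFDerivAt.congr_fderiv h1 ?_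
    ext <;> simp [AA_zero, BB_zero]
  have h3 : HasFDerivAt ff _ 0 := La.symm.hasFDerivAt.comp 0 (h2.comp 0 La.hasFDerivAt)
  rw [h3.fderiv]
  ext1 x
  simp

/-- The invariant function on the target. -/
noncomputable def Uy (y : EuclideanSpace ℂ (Fin 2)) : ℂ := c0 * ((La y).1 * (La y).2) + UU 0

lemma differentiable_Uy : Differentiable ℂ Uy := by
  have := La.differentiable
  unfold Uy
  fun_prop

lemma La_ff (x : EuclideanSpace ℂ (Fin 2)) : La (ff x) = F2 (La x) := La.apply_symm_apply _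

lemma Uy_ff (x : EuclideanSpace ℂ (Fin 2)) : Uy (ff x) = UU ((La x).1 * (La x).2) := by
  rw [Uy, La_ff, ← UU_formula ((La x).1 * (La x).2)]
  simp only [F2]
  ring

lemma injOn_ff : InjOn ff (ball 0 1) := by
  intro x hx y hy h
  obtain ⟨a1, a2, a3⟩ := ball_facts (mem_ball_zero_iff.1 hx)
  obtain ⟨b1, b2, b3⟩ := ball_facts (mem_ball_zero_iff.1 hy)
  have h1 : F2 (La x) = F2 (La y) := by rw [← La_ff, ← La_ff, h]
  have h2 := congrArg Prod.fst h1
  have h3 := congrArg Prod.snd h1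
  simp only [F2] at h2 h3
  have h4 := inj_s a1 b1 a2 b2 a3 b3 h2 (by rw [← Uy_ff, ← Uy_ff, h])
  rw [← h4] at h2 h3
  have h5 := mul_right_cancel₀ (AA_ne _) h2
  refine La.injective (Prod.ext h5 ?_)
  by_cases h0 : (La x).1 = 0
  · simpa [h0, BB_zero] using h3
  · rw [← h5] at h4
    exact mul_left_cancel₀ h0 h4

lemma diff_branch {X : Type*} [NormedAddCommGroup X] [NormedSpace ℂ X] {T : Set X} {y0 : X}
    (hy0 : y0 ∈ T) {θ U : X → ℂ} (hθ : ContinuousWithinAt θ T y0) (hU : DifferentiableAt ℂ U y0)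
    (he : ∀ y ∈ T, exp (2 * I * θ y) = U y) : DifferentiableWithinAt ℂ θ T y0 := by
  have h0 : U y0 ≠ 0 := he y0 hy0 ▸ exp_ne_zero _
  have hsl : U y0 / U y0 ∈ slitPlane := by rw [div_self h0]; exact one_mem_slitPlane
  have h1 : DifferentiableAt ℂ (fun y => θ y0 + log (U y / U y0) / (2 * I)) y0 :=
    ((DifferentiableAt.clog (f := fun y => U y / U y0) (hU.mul_const _) hsl).mul_const _).const_add _
  refine h1.differentiableWithinAt.congr_of_eventuallyEq ?_ (by simp [h0])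
  have h2 : ∀ᶠ y in 𝓝[T] y0, dist (θ y) (θ y0) < 1 := Metric.tendsto_nhds.1 hθ 1 one_pos
  filter_upwards [h2, self_mem_nhdsWithin] with y k1 k2
  rw [dist_eq_norm] at k1
  have k3 := abs_le.1 ((abs_re_le_norm _).trans k1.le)
  have k4 : (2 * I * θ y - 2 * I * θ y0).im = 2 * (θ y - θ y0).re := by simp; ring
  rw [← he y k2, ← he y0 hy0, ← exp_sub, log_exp (by rw [k4]; linarith [Real.pi_gt_three, k3.1])
    (by rw [k4]; linarith [Real.pi_gt_three, k3.2])]
  field_simp
  ring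

lemma exists_F0 {r : ℝ} (hr : r < 1) : ∃ F : EuclideanSpace ℂ (Fin 2) → ℂ,
    DifferentiableOn ℂ F (ff '' ball 0 r) ∧ ∀ x ∈ ball 0 r, F (ff x) = (La x).1 := by
  have hsub : closedBall (0 : EuclideanSpace ℂ (Fin 2)) r ⊆ ball 0 1 := closedBall_subset_ball hr
  have hinj := injOn_ff.mono hsub
  have hc : ContinuousOn ff (closedBall 0 r) := fun x hx =>
    (differentiableAt_ff (mem_ball_zero_iff.1 (hsub hx))).continuousAt.continuousWithinAt
  set v := Function.invFunOn ff (closedBall 0 r) with hv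
  have hl : ∀ x ∈ closedBall 0 r, v (ff x) = x := fun x hx => hinj.leftInvOn_invFunOn hx
  have hvc : ContinuousOn v (ff '' closedBall 0 r) := by
    rw [continuousOn_iff_isClosed]
    intro t ht
    refine ⟨ff '' (closedBall 0 r ∩ t), (((isCompact_closedBall 0 r).inter_right ht).image_of_continuousOn
      (hc.mono inter_subset_left)).isClosed, ?_⟩
    ext y
    constructor
    · rintro ⟨h1, x, hx, rfl⟩
      rw [mem_preimage, hl x hx] at h1
      exact ⟨⟨x, ⟨hx, h1⟩, rfl⟩, x, hx, rfl⟩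
    · rintro ⟨⟨x, hx, rfl⟩, h2⟩
      exact ⟨by rw [mem_preimage, hl x hx.1]; exact hx.2, h2⟩
  refine ⟨fun y => (La (v y)).1, ?_, fun x hx => by simp only [hl x (ball_subset_closedBall hx)]⟩
  rintro _ ⟨x0, hx0, rfl⟩
  have hx0' := ball_subset_closedBall hx0
  have h1 : ContinuousWithinAt v (ff '' ball 0 r) (ff x0) :=
    (hvc _ ⟨x0, hx0', rfl⟩).mono (image_mono ball_subset_closedBall)
  have h2 : ContinuousAt (fun x => tt ((La x).1 * (La x).2)) (v (ff x0)) := by
    rw [hl x0 hx0']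
    have := La.continuous
    exact ContinuousAt.comp (f := fun x => (La x).1 * (La x).2)
      (differentiableAt_tt (ball_facts (mem_ball_zero_iff.1 (hsub hx0'))).1).continuousAt
      (by fun_prop)
  have h3 := diff_branch (θ := fun y => tt ((La (v y)).1 * (La (v y)).2)) (mem_image_of_mem ff hx0)
    (h2.comp_continuousWithinAt h1) (differentiable_Uy _) (by
      rintro _ ⟨x, hx, rfl⟩
      rw [hl x (ball_subset_closedBall hx), Uy_ff, UU])
  have h4 : DifferentiableWithinAt ℂ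
      (fun y => (La y).1 * exp (-(mf (tt ((La (v y)).1 * (La (v y)).2)) - mf (tt 0))))
      (ff '' ball 0 r) (ff x0) :=
    La.differentiableAt.fst.differentiableWithinAt.mul
      (((differentiable_mf _).comp_differentiableWithinAt _ h3).sub_const _).neg.cexp
  have h5 : ∀ y ∈ ff '' ball 0 r, (La (v y)).1
      = (La y).1 * exp (-(mf (tt ((La (v y)).1 * (La (v y)).2)) - mf (tt 0))) := by
    rintro _ ⟨x, hx, rfl⟩
    rw [hl x (ball_subset_closedBall hx), La_ff, exp_neg]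
    change _ = (La x).1 * AA _ * (AA _)⁻¹
    rw [mul_inv_cancel_right₀ (AA_ne _)]
  exact h4.congr h5 (h5 _ (mem_image_of_mem ff hx0))

lemma lin_alg {a1 a2 p1 p2 v1 v2 w1 w2 : ℂ} (h1 : p2 * a1 + -p1 * a2 = 0) (h2 : v1 * a1 + v2 * a2 = 0)
    (h3 : w1 * a1 + w2 * a2 ≠ 0) : v1 * p1 + v2 * p2 = 0 := by
  refine (mul_eq_zero.1 (?_ : (w1 * a1 + w2 * a2) * (v1 * p1 + v2 * p2) = 0)).resolve_left h3
  linear_combination (w1 * v2 - w2 * v1) * h1 + (w1 * p1 + w2 * p2) * h2

theorem not_runge {Ω : Set (EuclideanSpace ℂ (Fin 2))} (hΩ : IsOpen Ω)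
    (hsub : ff '' ball 0 (1 - d0 / 32) ⊆ Ω)
    {g h : EuclideanSpace ℂ (Fin 2) → EuclideanSpace ℂ (Fin 2)} (hg : Differentiable ℂ g)
    (hr : range g = Ω) (hh : DifferentiableOn ℂ h Ω) (hhg : ∀ z, h (g z) = z)
    (hR : ∀ F : EuclideanSpace ℂ (Fin 2) → ℂ, DifferentiableOn ℂ F (ff '' ball 0 (1 - d0 / 32)) →
      ∀ K : Set (EuclideanSpace ℂ (Fin 2)), K ⊆ ff '' ball 0 (1 - d0 / 32) → IsCompact K →
      ∀ ε : ℝ, 0 < ε → ∃ G : EuclideanSpace ℂ (Fin 2) → ℂ,
        DifferentiableOn ℂ G Ω ∧ ∀ z ∈ K, ‖F z - G z‖ < ε) : False := by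
  have δ0 := d0_pos
  have δ1 := d0_le
  have hgΩ : ∀ z, g z ∈ Ω := fun z => hr ▸ mem_range_self z
  have hgh : ∀ y ∈ Ω, g (h y) = y := by
    intro y hy
    rw [← hr] at hy
    obtain ⟨z, rfl⟩ := hy
    rw [hhg]
  have hbb : closedBall (0 : EuclideanSpace ℂ (Fin 2)) (1 - d0 / 16) ⊆ ball 0 (1 - d0 / 32) :=
    closedBall_subset_ball (by linarith)
  have hK : IsCompact (ff '' closedBall 0 (1 - d0 / 16)) :=
    (isCompact_closedBall _ _).image_of_continuousOn fun x hx =>
      (differentiableAt_ff (by linarith [mem_closedBall_zero_iff.1 hx])).continuousAt.continuousWithinAt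
  have hKΩ : ff '' closedBall 0 (1 - d0 / 16) ⊆ Ω := (image_mono hbb).trans hsub
  obtain ⟨F, hF, hFe⟩ := exists_F0 (r := 1 - d0 / 32) (by linarith)
  obtain ⟨G, hG, hGe⟩ := hR F hF _ (image_mono hbb) hK (d0 / 512) (by positivity)
  have hΨ : Differentiable ℂ fun ζ : ℂ × ℂ => g (La.symm ζ) := hg.comp La.symm.differentiable
  have hH : Differentiable ℂ fun ζ : ℂ × ℂ => G (g (La.symm ζ)) := fun ζ =>
    (hG.differentiableAt (hΩ.mem_nhds (hgΩ _))).comp ζ (hΨ ζ)
  have hK' : IsCompact ((fun y => La (h y)) '' (ff '' closedBall 0 (1 - d0 / 16))) :=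
    hK.image_of_continuousOn (La.continuous.comp_continuousOn (hh.continuousOn.mono hKΩ))
  obtain ⟨P, D, hP, hPe⟩ := exists_fib_approx hH hK' (η := d0 / 512) (by positivity)
  have happ : ∀ z w : ℂ, ‖z‖ ^ 2 + ‖w‖ ^ 2 ≤ 1 - d0 / 8 → La.symm (F2 (z, w)) ∈ Ω ∧
      ‖P (La (h (La.symm (F2 (z, w))))) - z‖ < d0 / 256 := by
    intro z w hzw
    have h1 : La.symm (z, w) ∈ closedBall (0 : EuclideanSpace ℂ (Fin 2)) (1 - d0 / 16) := by
      rw [mem_closedBall_zero_iff]
      refine (abs_le_of_sq_le_sq' ?_ (by linarith)).2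
      rw [norm_sq_La, La.apply_symm_apply]
      nlinarith
    have h2 : ff (La.symm (z, w)) = La.symm (F2 (z, w)) := by rw [ff, La.apply_symm_apply]
    have h3 := hGe _ (mem_image_of_mem ff h1)
    have h4 := hPe _ (mem_image_of_mem _ (mem_image_of_mem ff h1))
    have h5 := hKΩ (mem_image_of_mem ff h1)
    rw [La.symm_apply_apply, hgh _ h5] at h4
    rw [hFe _ (hbb h1), La.apply_symm_apply] at h3
    rw [h2] at h3 h4 h5
    refine ⟨h5, ?_⟩
    have h6 := norm_sub_le_norm_sub_add_norm_sub z (G (La.symm (F2 (z, w))))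
      (P (La (h (La.symm (F2 (z, w))))))
    rw [norm_sub_rev]
    simp only at h3
    linarith
  set y0 := Real.sqrt (1 / 2) with hy0
  have y1 : y0 ^ 2 = 1 / 2 := Real.sq_sqrt (by norm_num)
  have y2 : 0 < y0 := Real.sqrt_pos.2 (by norm_num)
  have y3 : y0 ≤ 3 / 4 := by nlinarith
  set U : ℂ × ℂ → ℂ := fun ζ => Uy (g (La.symm ζ)) with hUd
  have hU : Differentiable ℂ U := differentiable_Uy.comp hΨ
  have hw := walls hP (O := {c | y0 + d0 / 128 < ‖c‖}) (isOpen_lt continuous_const continuous_norm)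
    hU (l := fun ζ => ‖(La (g (La.symm ζ))).1‖ ^ 2)
    (((La.continuous.comp hΨ.continuous).fst.norm).pow 2) continuous_lev
    (fun ζ hζ θ s1 s2 s3 he hl => by
      obtain ⟨s, hs, rfl⟩ := wall s1 s2 s3
      rw [lev_tt] at hl
      set z := (La (g (La.symm ζ))).1 / AA s with hz
      have hA : 0 < ‖AA s‖ := norm_pos_iff.2 (AA_ne s)
      have z1 : ‖z‖ ^ 2 = 1 / 2 := by
        rw [hz, norm_div, div_pow, hl]
        field_simp
      have z0 : z ≠ 0 := by
        intro h0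
        rw [h0] at z1
        norm_num at z1
      have z2 : ‖z‖ = y0 := by
        rw [← y1] at z1
        exact (pow_left_inj₀ (norm_nonneg _) y2.le two_ne_zero).1 z1
      have z3 : (La (g (La.symm ζ))).1 = z * AA s := by rw [hz, div_mul_cancel₀ _ (AA_ne s)]
      have z4 : F2 (z, s / z) = La (g (La.symm ζ)) := by
        have e : z * (s / z) = s := by field_simp
        refine Prod.ext (by simp only [F2, e, z3]) ?_
        simp only [F2, e]
        have k : c0 * (s * AA s * BB s) + UU 0 = Uy (g (La.symm ζ)) := (UU_formula s).trans he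
        rw [Uy, z3] at k
        have k2 := mul_left_cancel₀ c0_ne (add_right_cancel k)
        refine mul_left_cancel₀ (mul_ne_zero z0 (AA_ne s)) ?_
        rw [← k2]
        field_simp
      have z5 := (happ z (s / z) (by rw [norm_div s z, div_pow, z1]; linarith)).2
      rw [z4, La.symm_apply_apply, hhg, La.apply_symm_apply] at z5
      have z6 := norm_sub_norm_le (P ζ) z
      have z7 : y0 + d0 / 128 < ‖P ζ‖ := hζ
      linarith) nesting
  obtain ⟨θ, hQ, t1, t2⟩ := exists_base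
  have hS : Strip θ := by unfold Strip; rw [hQ]; norm_num
  obtain ⟨s, hs, rfl⟩ := wall hS t1.le (by linarith [Real.pi_pos])
  have hcurve : ∀ (c : ℂ → ℂ × ℂ) (t : ℂ), DifferentiableAt ℂ c t → La.symm (c t) ∈ Ω →
      ∃ v, HasDerivAt (fun t => La (h (La.symm (c t)))) v t ∧
        HasDerivAt (fun t => c0 * ((c t).1 * (c t).2) + UU 0)
          (fderiv ℂ U (La (h (La.symm (c t)))) v) t := by
    intro c t hc hΩt
    have k1 : DifferentiableAt ℂ (fun t => La.symm (c t)) t := La.symm.differentiableAt.comp t hc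
    have k2 : DifferentiableAt ℂ (fun t => La (h (La.symm (c t)))) t :=
      La.differentiableAt.comp t ((hh.differentiableAt (hΩ.mem_nhds hΩt)).comp t k1)
    refine ⟨_, k2.hasDerivAt, ((hU _).hasFDerivAt.comp_hasDerivAt t k2.hasDerivAt).congr_of_eventuallyEq ?_⟩
    filter_upwards [k1.continuousAt.eventually (hΩ.mem_nhds hΩt)] with u hu
    simp only [Function.comp_apply, hUd, La.symm_apply_apply, hgh _ hu, Uy, La.apply_symm_apply]
  set c : ℂ → ℂ × ℂ := fun x => (x * AA s, s / x * BB s) with hc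
  have harc : ∀ x : ℝ, x ∈ Icc (y0 + d0 / 64) (y0 + d0 / 32) → La.symm (c x) ∈ Ω ∧
      ‖P (La (h (La.symm (c x)))) - x‖ < d0 / 256 := by
    intro x hx
    have x0 : 0 < x := by linarith [hx.1]
    have x1 : (x : ℂ) ≠ 0 := by exact_mod_cast x0.ne'
    have e : F2 (x, s / x) = c x := by
      have e : (x : ℂ) * (s / x) = s := by field_simp
      simp only [F2, e, hc]
    rw [← e]
    refine happ _ _ ?_
    rw [norm_div, div_pow, Complex.norm_real, Real.norm_of_nonneg x0.le]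
    have x2 : 1 / 2 ≤ x ^ 2 := by nlinarith [hx.1]
    have x3 : x ^ 2 ≤ 1 / 2 + d0 / 8 := by nlinarith [hx.2]
    have x4 : ‖s‖ ^ 2 / x ^ 2 ≤ ‖s‖ ^ 2 / (1 / 2) :=
      div_le_div_of_nonneg_left (by positivity) (by norm_num) x2
    linarith
  have hder : ∀ x : ℝ, x ∈ Icc (y0 + d0 / 64) (y0 + d0 / 32) →
      HasDerivAt (fun x : ℝ => P (La (h (La.symm (c x))))) 0 x := by
    intro x hx
    obtain ⟨a1, a2⟩ := harc x hx
    have x0 : 0 < x := by linarith [hx.1]
    have x1 : (x : ℂ) ≠ 0 := by exact_mod_cast x0.ne'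
    have hA : 0 < ‖AA s‖ := norm_pos_iff.2 (AA_ne s)
    have a3 : La (g (La.symm (La (h (La.symm (c x)))))) = c x := by
      rw [La.symm_apply_apply, hgh _ a1, La.apply_symm_apply]
    have a4 : ‖(c x).1‖ ^ 2 = x ^ 2 * ‖AA s‖ ^ 2 := by
      simp only [hc]
      rw [norm_mul, mul_pow, Complex.norm_real, Real.norm_of_nonneg x0.le]
    have x2 : 1 / 2 < x ^ 2 := by nlinarith [hx.1]
    have x3 : x ^ 2 < 1 := by nlinarith [hx.2]
    have a5 := hw (La (h (La.symm (c x)))) (by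
        have := norm_sub_norm_le (x : ℂ) (P (La (h (La.symm (c x)))))
        rw [norm_sub_rev, Complex.norm_real, Real.norm_of_nonneg x0.le] at this
        change y0 + d0 / 128 < _
        linarith [hx.1]) (tt s) hQ t1 t2
      (by
        simp only [hUd, Uy, a3]
        simp only [hc]
        rw [show (x : ℂ) * AA s * (s / x * BB s) = s * AA s * BB s by field_simp, UU_formula, UU])
      (by rw [a3, a4, lev_tt]; nlinarith [pow_pos hA 2])
      (by
        have := lev_double hS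
        rw [lev_tt] at this
        rw [a3, a4]
        nlinarith [pow_pos hA 2])
    obtain ⟨v, v1, v2⟩ := hcurve c x (by simp only [hc]; fun_prop (disch := exact x1)) a1
    obtain ⟨w, -, w2⟩ := hcurve (fun t => ((c x).1, (c x).2 + t)) 0 (by fun_prop) (by simpa using a1)
    have v3 : fderiv ℂ U (La (h (La.symm (c x)))) v = 0 := by
      refine v2.unique ((hasDerivAt_const (x : ℂ) (c0 * (s * AA s * BB s) + UU 0)).congr_of_eventuallyEq ?_)
      filter_upwards [eventually_ne_nhds x1] with u hu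
      simp only [hc]
      field_simp
    have w3 : fderiv ℂ U (La (h (La.symm (c x)))) w ≠ 0 := by
      have k : HasDerivAt (fun t : ℂ => c0 * ((c x).1 * ((c x).2 + t)) + UU 0)
          (c0 * ((c x).1 * 1)) 0 :=
        ((((hasDerivAt_id (0 : ℂ)).const_add _).const_mul _).const_mul _).add_const _
      have k2 := w2.unique k
      simp only [add_zero, Prod.mk.eta] at k2
      rw [k2]
      exact mul_ne_zero c0_ne (mul_ne_zero (mul_ne_zero x1 (AA_ne s)) one_ne_zero)
    rw [fderiv_apply_eq] at a5 v3 w3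
    have a6 : fderiv ℂ P (La (h (La.symm (c x)))) v = 0 := by
      rw [fderiv_apply_eq]
      exact lin_alg a5 v3 w3
    have a7 := (hP.diff _).hasFDerivAt.comp_hasDerivAt (x : ℂ) v1
    rw [a6] at a7
    exact a7.comp_ofReal
  have hle : y0 + d0 / 64 ≤ y0 + d0 / 32 := by linarith
  have hconst := constant_of_has_deriv_right_zero
    (fun x hx => (hder x hx).continuousAt.continuousWithinAt)
    (fun x hx => (hder x (Ico_subset_Icc_self hx)).hasDerivWithinAt) _ (right_mem_Icc.2 hle)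
  have b1 := (harc _ (left_mem_Icc.2 hle)).2
  have b2 := (harc _ (right_mem_Icc.2 hle)).2
  rw [hconst] at b2
  have b3 := norm_sub_le_norm_sub_add_norm_sub ((y0 + d0 / 32 : ℝ) : ℂ)
    (P (La (h (La.symm (c ((y0 + d0 / 64 : ℝ) : ℂ)))))) ((y0 + d0 / 64 : ℝ) : ℂ)
  rw [norm_sub_rev ((y0 + d0 / 32 : ℝ) : ℂ) (P _), ← ofReal_sub, Complex.norm_real,
    Real.norm_of_nonneg (by linarith)] at b3
  linarith

end Pool.Agent.MP_161a40_an.H4
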