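import Mathlib

/-!
Entire functions of two complex variables: smoothness (Osgood) and approximation by functions
that are polynomial in the second variable.
-/

set_option autoImplicit false

open Complex Metric Set MeasureTheory
open scoped Real Topology

namespace Pool.Agent.MP_161a40_an.H4

lemma hasDerivAt_line {F : ℂ × ℂ → ℂ} (hF : Differentiable ℂ F) (ζ v : ℂ × ℂ) (t : ℂ) :
    HasDerivAt (fun t : ℂ => F (ζ + t • v)) (fderiv ℂ F (ζ + t • v) v) t := by
  have h1 : HasDerivAt (fun t : ℂ => ζ + t • v) v t := by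
    simpa using ((hasDerivAt_id t).smul_const v).const_add ζ
  exact (hF (ζ + t • v)).hasFDerivAt.comp_hasDerivAt t h1

/-- The kernel in the Cauchy formula for the first derivative. -/
noncomputable def cker (θ : ℝ) : ℂ :=
  (2 * π * I)⁻¹ * (deriv (circleMap 0 1) θ * (1 / (circleMap 0 1 θ - 0) ^ 2))

lemma continuous_cker : Continuous cker := by
  unfold cker
  simp only [deriv_circleMap]
  refine continuous_const.mul (((continuous_circleMap 0 1).mul continuous_const).mul ?_)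
  refine continuous_const.div (((continuous_circleMap 0 1).sub continuous_const).pow 2) ?_
  intro θ
  simp

lemma fderiv_eq_integral {F : ℂ × ℂ → ℂ} (hF : Differentiable ℂ F) (ζ v : ℂ × ℂ) :
    fderiv ℂ F ζ v = ∫ θ in (0 : ℝ)..2 * π, cker θ * F (ζ + circleMap 0 1 θ • v) := by
  have hd : Differentiable ℂ (fun t : ℂ => F (ζ + t • v)) :=
    fun t => (hasDerivAt_line hF ζ v t).differentiableAt
  have h := (hd.diffContOnCl (s := ball 0 1)).deriv_eq_smul_circleIntegral one_pos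
  have h0 := (hasDerivAt_line hF ζ v 0).deriv
  simp only [zero_smul, add_zero] at h0
  rw [h0] at h
  have h2 : fderiv ℂ F ζ v = (2 * π * I)⁻¹ * ((2 * π * I) • fderiv ℂ F ζ v) := by
    rw [smul_eq_mul, ← mul_assoc, inv_mul_cancel₀ two_pi_I_ne_zero, one_mul]
  rw [h2, ← h, circleIntegral, ← intervalIntegral.integral_const_mul]
  congr 1
  ext θ
  simp only [cker, smul_eq_mul]
  ring

lemma continuous_fderiv_entire {F : ℂ × ℂ → ℂ} (hF : Differentiable ℂ F) :
    Continuous (fderiv ℂ F) := by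
  rw [continuous_clm_apply]
  intro v
  simp only [fderiv_eq_integral hF]
  apply intervalIntegral.continuous_parametric_intervalIntegral_of_continuous'
  have h1 := continuous_cker
  have h2 := hF.continuous
  have h3 := continuous_circleMap 0 1
  unfold Function.uncurry
  fun_prop

theorem osgood {F : ℂ × ℂ → ℂ} (hF : Differentiable ℂ F) (v : ℂ × ℂ) :
    Differentiable ℂ (fun ζ => fderiv ℂ F ζ v) := by
  intro ζ0
  simp only [fderiv_eq_integral hF]
  have h1 := continuous_cker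
  have h2 := hF.continuous
  have h3 := continuous_circleMap 0 1
  have h4 := continuous_fderiv_entire hF
  have hc : Continuous (fun p : (ℂ × ℂ) × ℝ =>
      cker p.2 • fderiv ℂ F (p.1 + circleMap 0 1 p.2 • v)) := by fun_prop
  obtain ⟨B, hB⟩ := ((isCompact_closedBall ζ0 1).prod
    (isCompact_uIcc (a := (0 : ℝ)) (b := 2 * π))).exists_bound_of_continuousOn hc.continuousOn
  have key := intervalIntegral.hasFDerivAt_integral_of_dominated_of_fderiv_le (𝕜 := ℂ)
    (μ := volume) (a := 0) (b := 2 * π) (bound := fun _ => B)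
    (F := fun ζ θ => cker θ * F (ζ + circleMap 0 1 θ • v))
    (F' := fun ζ θ => cker θ • fderiv ℂ F (ζ + circleMap 0 1 θ • v)) (x₀ := ζ0)
    (closedBall_mem_nhds ζ0 one_pos)
    (Filter.Eventually.of_forall fun ζ => Continuous.aestronglyMeasurable (by fun_prop))
    (Continuous.intervalIntegrable (by fun_prop) _ _)
    (Continuous.aestronglyMeasurable (by fun_prop))
    (Filter.Eventually.of_forall fun θ hθ ζ hζ => hB (ζ, θ) ⟨hζ, uIoc_subset_uIcc hθ⟩)
    intervalIntegrable_const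
    (Filter.Eventually.of_forall fun θ _ ζ _ => by
      have h5 : HasFDerivAt (fun x : ℂ × ℂ => F (x + circleMap 0 1 θ • v))
          (fderiv ℂ F (ζ + circleMap 0 1 θ • v)) ζ := by
        have := (hF (ζ + circleMap 0 1 θ • v)).hasFDerivAt.comp ζ
          ((hasFDerivAt_id ζ).add_const (circleMap 0 1 θ • v))
        simpa [Function.comp_def] using this
      exact h5.const_mul _)
  exact key.differentiableAt

theorem contDiff_entire (n : ℕ) : ∀ {F : ℂ × ℂ → ℂ}, Differentiable ℂ F → ContDiff ℂ n F := by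
  induction n with
  | zero => intro F hF; simpa using hF.continuous
  | succ n ih =>
    intro F hF
    rw [Nat.cast_succ, contDiff_succ_iff_fderiv_apply]
    exact ⟨hF, by simp, fun y => ih (osgood hF y)⟩

/-- Derivative in the first variable. -/
noncomputable def d1 (F : ℂ × ℂ → ℂ) (ζ : ℂ × ℂ) : ℂ := fderiv ℂ F ζ (1, 0)

/-- Derivative in the second variable. -/
noncomputable def d2 (F : ℂ × ℂ → ℂ) (ζ : ℂ × ℂ) : ℂ := fderiv ℂ F ζ (0, 1)

lemma differentiable_d1 {F : ℂ × ℂ → ℂ} (hF : Differentiable ℂ F) : Differentiable ℂ (d1 F) :=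
  osgood hF _

lemma differentiable_d2 {F : ℂ × ℂ → ℂ} (hF : Differentiable ℂ F) : Differentiable ℂ (d2 F) :=
  osgood hF _

lemma fderiv_apply_eq (F : ℂ × ℂ → ℂ) (ζ v : ℂ × ℂ) :
    fderiv ℂ F ζ v = v.1 * d1 F ζ + v.2 * d2 F ζ := by
  have : v = v.1 • ((1, 0) : ℂ × ℂ) + v.2 • ((0, 1) : ℂ × ℂ) := by ext <;> simp
  conv_lhs => rw [this]
  simp only [map_add, map_smul, smul_eq_mul, d1, d2]

lemma d1_d2 {F : ℂ × ℂ → ℂ} (hF : Differentiable ℂ F) (ζ : ℂ × ℂ) :
    d1 (d2 F) ζ = d2 (d1 F) ζ := by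
  have h2 : ContDiff ℂ 2 F := contDiff_entire 2 hF
  have hs := (h2.contDiffAt (x := ζ)).isSymmSndFDerivAt (by simp)
  have hd : DifferentiableAt ℂ (fderiv ℂ F) ζ :=
    ((h2.fderiv_right (m := 1) (by norm_num)).differentiable (by norm_num)) ζ
  have e : ∀ v w : ℂ × ℂ, fderiv ℂ (fun x => fderiv ℂ F x v) ζ w
      = fderiv ℂ (fderiv ℂ F) ζ w v := by
    intro v w
    rw [fderiv_clm_apply hd (differentiableAt_const v)]
    simp
  unfold d1 d2
  rw [e, e, hs]

lemma hasDerivAt_slice {F : ℂ × ℂ → ℂ} (hF : Differentiable ℂ F) (a w : ℂ) :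
    HasDerivAt (fun w => F (a, w)) (d2 F (a, w)) w := by
  have h1 : HasDerivAt (fun w : ℂ => ((a, w) : ℂ × ℂ)) (0, 1) w :=
    (hasDerivAt_const w a).prodMk (hasDerivAt_id w)
  exact (hF (a, w)).hasFDerivAt.comp_hasDerivAt w h1

lemma differentiable_iter (j : ℕ) : ∀ {F : ℂ × ℂ → ℂ}, Differentiable ℂ F →
    Differentiable ℂ (d2^[j] F) := by
  induction j with
  | zero => intro F hF; simpa using hF
  | succ j ih => intro F hF; rw [Function.iterate_succ_apply]; exact ih (differentiable_d2 hF)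

lemma iteratedDeriv_slice (j : ℕ) : ∀ {F : ℂ × ℂ → ℂ}, Differentiable ℂ F → ∀ a w : ℂ,
    iteratedDeriv j (fun w => F (a, w)) w = (d2^[j] F) (a, w) := by
  induction j with
  | zero => intro F _ a w; simp
  | succ j ih =>
    intro F hF a w
    rw [iteratedDeriv_succ', Function.iterate_succ_apply, ← ih (differentiable_d2 hF)]
    congr 1
    ext w
    exact (hasDerivAt_slice hF a w).deriv

/-- Entire functions that are polynomial of degree at most `D` in the second variable and proper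
in the second variable, locally uniformly in the first. -/
structure Fib (P : ℂ × ℂ → ℂ) (D : ℕ) : Prop where
  diff : Differentiable ℂ P
  poly : ∀ a, ∃ q : Polynomial ℂ, q.natDegree ≤ D ∧ ∀ w, P (a, w) = q.eval w
  proper : ∀ R M : ℝ, ∃ R' : ℝ, ∀ ζ : ℂ × ℂ, ‖ζ.1‖ ≤ R → ‖P ζ‖ ≤ M → ‖ζ.2‖ ≤ R'

lemma fib_of_coeff (D : ℕ) (c : ℕ → ℂ → ℂ) (hc : ∀ j, Differentiable ℂ (c j)) (ε : ℝ)
    (hε : 0 < ε) :
    Fib (fun ζ => ∑ j ∈ Finset.range (D + 1), c j ζ.1 * ζ.2 ^ j + ε * ζ.2 ^ (D + 1)) (D + 1) := by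
  refine ⟨?_, ?_, ?_⟩
  · refine Differentiable.add (Differentiable.fun_sum fun j _ => ?_) (by fun_prop)
    exact ((hc j).comp differentiable_fst).mul (by fun_prop)
  · intro a
    refine ⟨∑ j ∈ Finset.range (D + 1), Polynomial.C (c j a) * Polynomial.X ^ j
      + Polynomial.C (ε : ℂ) * Polynomial.X ^ (D + 1), ?_, ?_⟩
    · refine Polynomial.natDegree_add_le_of_degree_le ?_ (Polynomial.natDegree_C_mul_X_pow_le _ _)
      refine Polynomial.natDegree_sum_le_of_forall_le _ _ fun j hj => ?_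
      exact (Polynomial.natDegree_C_mul_X_pow_le _ _).trans (Finset.mem_range.1 hj).le
    · intro w
      simp [Polynomial.eval_finsetSum]
  · intro R M
    have hb : ∀ j, ∃ B, ∀ a ∈ closedBall (0 : ℂ) R, ‖c j a‖ ≤ B := fun j =>
      (isCompact_closedBall 0 R).exists_bound_of_continuousOn (hc j).continuous.continuousOn
    choose B hB using hb
    refine ⟨max 1 ((|M| + ∑ j ∈ Finset.range (D + 1), |B j|) / ε), fun ζ h1 h2 => ?_⟩
    by_contra hcon
    rw [not_le, max_lt_iff] at hcon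
    obtain ⟨k1, k2⟩ := hcon
    have hp : 0 < ‖ζ.2‖ ^ D := by positivity
    have hp1 : 1 ≤ ‖ζ.2‖ ^ D := one_le_pow₀ k1.le
    have h3 : ‖∑ j ∈ Finset.range (D + 1), c j ζ.1 * ζ.2 ^ j‖
        ≤ (∑ j ∈ Finset.range (D + 1), |B j|) * ‖ζ.2‖ ^ D := by
      rw [Finset.sum_mul]
      refine norm_sum_le_of_le _ fun j hj => ?_
      rw [norm_mul, norm_pow]
      refine mul_le_mul ((hB j _ (by simpa using h1)).trans (le_abs_self _))
        (pow_le_pow_right₀ k1.le (Nat.lt_succ_iff.1 (Finset.mem_range.1 hj))) (by positivity)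
        (abs_nonneg _)
    have h4 : ε * ‖ζ.2‖ ^ (D + 1) ≤ M + (∑ j ∈ Finset.range (D + 1), |B j|) * ‖ζ.2‖ ^ D := by
      have h5 : ‖(ε : ℂ) * ζ.2 ^ (D + 1)‖ = ε * ‖ζ.2‖ ^ (D + 1) := by
        rw [norm_mul, norm_pow, Complex.norm_real, Real.norm_of_nonneg hε.le]
      have h6 := norm_sub_le (∑ j ∈ Finset.range (D + 1), c j ζ.1 * ζ.2 ^ j + ε * ζ.2 ^ (D + 1))
        (∑ j ∈ Finset.range (D + 1), c j ζ.1 * ζ.2 ^ j)
      rw [add_sub_cancel_left, h5] at h6
      linarith
    rw [div_lt_iff₀ hε] at k2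
    have h7 : M ≤ |M| * ‖ζ.2‖ ^ D :=
      (le_abs_self M).trans (le_mul_of_one_le_right (abs_nonneg _) hp1)
    have h8 := mul_lt_mul_of_pos_right k2 hp
    rw [pow_succ] at h4
    nlinarith

theorem exists_fib_approx {H : ℂ × ℂ → ℂ} (hH : Differentiable ℂ H) {K : Set (ℂ × ℂ)}
    (hK : IsCompact K) {η : ℝ} (hη : 0 < η) :
    ∃ (P : ℂ × ℂ → ℂ) (D : ℕ), Fib P D ∧ ∀ ζ ∈ K, ‖H ζ - P ζ‖ < η := by
  obtain ⟨R, hR0, hR⟩ := hK.isBounded.subset_closedBall_lt 0 (0 : ℂ × ℂ)
  obtain ⟨M, hM⟩ := (isCompact_closedBall (0 : ℂ × ℂ) (2 * R)).exists_bound_of_continuousOn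
    hH.continuous.continuousOn
  have hM0 : 0 ≤ M := (norm_nonneg _).trans (hM 0 (by simp; positivity))
  have hsum : Summable (fun j : ℕ => M * (1 / 2 : ℝ) ^ j) := summable_geometric_two.mul_left M
  have ht := (tendsto_sum_nat_add (fun j : ℕ => M * (1 / 2 : ℝ) ^ j)).eventually
    (gt_mem_nhds (half_pos hη))
  obtain ⟨D, hD⟩ := Filter.eventually_atTop.1 ht
  set c : ℕ → ℂ → ℂ := fun j a => (j.factorial : ℂ)⁻¹ * (d2^[j] H) (a, 0) with hc
  have hcd : ∀ j, Differentiable ℂ (c j) := fun j =>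
    ((differentiable_iter j hH).comp (by fun_prop : Differentiable ℂ fun a : ℂ =>
      ((a, 0) : ℂ × ℂ))).const_mul _
  have hε : 0 < η / 2 / R ^ (D + 1) := by positivity
  refine ⟨_, _, fib_of_coeff D c hcd _ hε, fun ζ hζ => ?_⟩
  have hζR : ‖ζ‖ ≤ R := by simpa using hR hζ
  have h1 : ‖ζ.1‖ ≤ R := (norm_fst_le ζ).trans hζR
  have h2 : ‖ζ.2‖ ≤ R := (norm_snd_le ζ).trans hζR
  have hsl : Differentiable ℂ (fun w => H (ζ.1, w)) := fun w =>
    (hasDerivAt_slice hH ζ.1 w).differentiableAt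
  have hs : HasSum (fun j => c j ζ.1 * ζ.2 ^ j) (H ζ) := by
    have := hasSum_taylorSeries_of_entire hsl 0 ζ.2
    have e : (fun j => c j ζ.1 * ζ.2 ^ j) = fun n : ℕ => (n.factorial : ℂ)⁻¹ • (ζ.2 - 0) ^ n •
        iteratedDeriv n (fun w => H (ζ.1, w)) 0 := by
      ext j
      rw [iteratedDeriv_slice j hH]
      simp only [hc, smul_eq_mul, sub_zero]
      ring
    rw [e]
    exact this
  have hb : ∀ j, ‖c j ζ.1 * ζ.2 ^ j‖ ≤ M * (1 / 2 : ℝ) ^ j := by
    intro j
    have h3 := norm_iteratedDeriv_le_of_forall_mem_sphere_norm_le (c := 0) (R := 2 * R) (C := M)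
      j (by positivity) hsl.diffContOnCl (fun z hz => hM (ζ.1, z) (by
        have : ‖z‖ = 2 * R := by simpa using hz
        rw [mem_closedBall_zero_iff, Prod.norm_def]
        exact max_le (by simp only; linarith) this.le))
    rw [iteratedDeriv_slice j hH] at h3
    have hf : (0 : ℝ) < j.factorial := by exact_mod_cast j.factorial_pos
    have h4 : ‖c j ζ.1‖ ≤ M / (2 * R) ^ j := by
      simp only [hc, norm_mul, norm_inv, Complex.norm_natCast]
      rw [inv_mul_le_iff₀ hf, ← mul_div_assoc]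
      exact h3
    rw [norm_mul, norm_pow]
    calc ‖c j ζ.1‖ * ‖ζ.2‖ ^ j ≤ M / (2 * R) ^ j * R ^ j :=
          mul_le_mul h4 (pow_le_pow_left₀ (norm_nonneg _) h2 j) (by positivity) (by positivity)
      _ = M * (1 / 2 : ℝ) ^ j := by
          rw [mul_pow, one_div, inv_pow]
          field_simp
  have h5 : ‖H ζ - ∑ j ∈ Finset.range (D + 1), c j ζ.1 * ζ.2 ^ j‖ < η / 2 := by
    have h6 := (hasSum_nat_add_iff' (D + 1)).2 hs
    have h7 := tsum_of_norm_bounded ((summable_nat_add_iff (D + 1)).2 hsum).hasSum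
      (fun j => hb (j + (D + 1)))
    rw [h6.tsum_eq] at h7
    exact h7.trans_lt (hD (D + 1) (Nat.le_succ D))
  have h8 : ‖((η / 2 / R ^ (D + 1) : ℝ) : ℂ) * ζ.2 ^ (D + 1)‖ ≤ η / 2 := by
    rw [norm_mul, norm_pow, Complex.norm_real, Real.norm_of_nonneg hε.le, div_mul_eq_mul_div,
      div_le_iff₀ (by positivity)]
    exact mul_le_mul_of_nonneg_left (pow_le_pow_left₀ (norm_nonneg _) h2 _) (by positivity)
  have h9 := norm_sub_le (H ζ - ∑ j ∈ Finset.range (D + 1), c j ζ.1 * ζ.2 ^ j)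
    (((η / 2 / R ^ (D + 1) : ℝ) : ℂ) * ζ.2 ^ (D + 1))
  rw [sub_sub] at h9
  linarith

end Pool.Agent.MP_161a40_an.H4
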